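import Pool.Agent.Helper86.Cyl.Choice

/-!
The questions answered by `K`.
-/

namespace Pool.Agent.Helper86.Cyl

open Pool.Agent.PolyTime Pool.Agent.Helper86.Rel

/-- questions: index of a code and secrets of small index, level, data -/
abbrev Qn : Type := (ℕ × List (Option Str)) × ℕ × (Trip ⊕ Str)

/-- answers -/
noncomputable def ans (E : ℕ → Code) (K : Set Str) (t : Qn) : Str :=
  match t.2.2 with
  | Sum.inl T => enc (ansT (E t.1.1) K t.1.2 t.2.1 T)
  | Sum.inr w => enc (ansI (E t.1.1) K t.1.2 t.2.1 w)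

/-- the functional answered by `K` -/
noncomputable def psi (E : ℕ → Code) (K : Set Str) (v : Str) : Str := by
  classical
  exact if h : ∃ t : Qn, enc t = v then ans E K h.choose else []

theorem psi_enc (E : ℕ → Code) (K : Set Str) (t : Qn) : psi E K (enc t) = ans E K t := by
  have h : ∃ t' : Qn, enc t' = enc t := ⟨t, rfl⟩
  rw [psi, dif_pos h]
  congr 1
  exact enc_inj.1 h.choose_spec

/-- `K` answers all questions -/
def Answers (E : ℕ → Code) (K : Set Str) : Prop := ∀ v j b u,
  kq v j b u ∈ K ↔ ansBit (psi E {w | w ∈ K ∧ w.length < u.length} v) j b = true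

theorem exists_answers (E : ℕ → Code) : ∃ K, Answers E K := exists_K (psi E)

variable {α : Type} [PEnc α]

theorem pbd_lb (c : Code) {N : α → ℕ} (h : PBd N) : PBd (fun a => lb c (N a)) :=
  (((PBd.const 3).mul h).add (PBd.const 5)).pow _

theorem pto_ansT {E : ℕ → Code} {K : Set Str} {G : ℕ → Option Str} (hK : Answers E K) (e : ℕ)
    (P : List (Option Str)) {N : α → ℕ} {T : α → Trip} (hN : PTO (join K G) N) (hNb : PBd N)
    (hT : PTO (join K G) T) :
    PTO (join K G) (fun a => ansT (E e) K P (N a) (T a)) := by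
  have hl := pbd_lb (E e) hNb
  refine pto_K (Ψ := psi E) hK (V := fun a => enc (((e, P), N a, Sum.inl (T a)) : Qn)) ?_
    (b := fun a => lb (E e) (N a) + (2 * (lb (E e) (N a) * (18 * lb (E e) (N a) + 3)) + 1 +
      3 * lb (E e) (N a))) ?_ ?_ ?_
  · fun_prop
  · exact hl.add ((((PBd.const 2).mul (hl.mul (((PBd.const 18).mul hl).add (PBd.const 3)))).add
      (PBd.const 1)).add ((PBd.const 3).mul hl))
  · intro a B hB
    rw [psi_enc, ans]
    show enc (ansT (E e) (cut K B) P (N a) (T a)) = _
    rw [ansT_cut (by omega)]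
  · intro a
    have := size_ansT_le (E e) K P (N a) (T a)
    omega

theorem pto_ansI {E : ℕ → Code} {K : Set Str} {G : ℕ → Option Str} (hK : Answers E K) (e : ℕ)
    (P : List (Option Str)) {N : α → ℕ} {w : α → Str} (hN : PTO (join K G) N) (hNb : PBd N)
    (hw : PTO (join K G) w) :
    PTO (join K G) (fun a => ansI (E e) K P (N a) (w a)) := by
  have hl := pbd_lb (E e) hNb
  refine pto_K (Ψ := psi E) hK (V := fun a => enc (((e, P), N a, Sum.inr (w a)) : Qn)) ?_
    (b := fun a => lb (E e) (N a) + (2 * N a + 1)) ?_ ?_ ?_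
  · fun_prop
  · exact hl.add (((PBd.const 2).mul hNb).add (PBd.const 1))
  · intro a B hB
    rw [psi_enc, ans]
    show enc (ansI (E e) (cut K B) P (N a) (w a)) = _
    rw [ansI_cut (by omega)]
  · intro a
    have := size_ansI_le (E e) K P (N a) (w a)
    omega

end Pool.Agent.Helper86.Cyl
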