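import Pool.Agent.Helper86.Cyl.Defs

/-!
The Berman-Hartmanis theorem relative to an oracle: two m-equivalent cylinders are p-isomorphic.
-/

namespace Pool.Agent.Helper86.Cyl

open Pool.Agent.PolyTime Pool.Agent.Helper86.Rel

/-- one step towards the ancestors; `false` marks the left side -/
def anc (F' G' : Str → Option Str) (s : Bool × Str) : Bool × Str :=
  bif s.1 then
    (match F' s.2 with
      | none => s
      | some x => (false, x))
  else
    (match G' s.2 with
      | none => s
      | some y => (true, y))

section anc

variable {F G : Str → Str} {F' G' : Str → Option Str}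

theorem anc_false (x : Str) : anc F' G' (false, x) =
    (match G' x with
      | none => (false, x)
      | some y => (true, y)) := rfl

theorem anc_true (y : Str) : anc F' G' (true, y) =
    (match F' y with
      | none => (true, y)
      | some x => (false, x)) := rfl

theorem anc_cases (hF : ∀ x w, F' w = some x ↔ F x = w) (hG : ∀ x w, G' w = some x ↔ G x = w)
    (lF : ∀ x, x.length < (F x).length) (lG : ∀ x, x.length < (G x).length) (s : Bool × Str) :
    anc F' G' s = s ∨ (anc F' G' s).2.length < s.2.length := by
  obtain ⟨b, x⟩ := s
  cases b with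
  | false =>
    rw [anc_false]
    cases h : G' x with
    | none => left; rfl
    | some y =>
      right
      have := (hG _ _).1 h
      have h2 := lG y
      rw [this] at h2
      exact h2
  | true =>
    rw [anc_true]
    cases h : F' x with
    | none => left; rfl
    | some y =>
      right
      have := (hF _ _).1 h
      have h2 := lF y
      rw [this] at h2
      exact h2

theorem anc_iter_fixed (hF : ∀ x w, F' w = some x ↔ F x = w) (hG : ∀ x w, G' w = some x ↔ G x = w)
    (lF : ∀ x, x.length < (F x).length) (lG : ∀ x, x.length < (G x).length) :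
    ∀ (n : ℕ) (s : Bool × Str), s.2.length ≤ n →
      anc F' G' ((anc F' G')^[n] s) = (anc F' G')^[n] s := by
  intro n
  induction n with
  | zero =>
    intro s hs
    rcases anc_cases hF hG lF lG s with h | h
    · simpa using h
    · omega
  | succ n ih =>
    intro s hs
    rcases anc_cases hF hG lF lG s with h | h
    · have : ∀ m, (anc F' G')^[m] s = s := fun m => by
        induction m with
        | zero => rfl
        | succ m ihm => rw [Function.iterate_succ_apply, h, ihm]
      rw [this, h]
    · rw [Function.iterate_succ_apply]
      exact ih _ (by omega)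

theorem anc_iter_stable (hF : ∀ x w, F' w = some x ↔ F x = w)
    (hG : ∀ x w, G' w = some x ↔ G x = w)
    (lF : ∀ x, x.length < (F x).length) (lG : ∀ x, x.length < (G x).length)
    (s : Bool × Str) (n : ℕ) (h : s.2.length ≤ n) :
    (anc F' G')^[n] s = (anc F' G')^[s.2.length] s := by
  obtain ⟨k, rfl⟩ := Nat.exists_eq_add_of_le h
  clear h
  induction k with
  | zero => rfl
  | succ k ih =>
    rw [← Nat.add_assoc, Function.iterate_succ_apply', ih]
    exact anc_iter_fixed hF hG lF lG _ _ le_rfl

/-- the side on which the ancestor chain stops -/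
def side (F' G' : Str → Option Str) (s : Bool × Str) : Bool := ((anc F' G')^[s.2.length] s).1

theorem side_anc (hF : ∀ x w, F' w = some x ↔ F x = w) (hG : ∀ x w, G' w = some x ↔ G x = w)
    (lF : ∀ x, x.length < (F x).length) (lG : ∀ x, x.length < (G x).length)
    (s : Bool × Str) : side F' G' (anc F' G' s) = side F' G' s := by
  unfold side
  rcases anc_cases hF hG lF lG s with h | h
  · rw [h]
  · have h1 := anc_iter_stable hF hG lF lG (anc F' G' s) (s.2.length - 1) (by omega)
    rw [← h1]
    congr 1
    have h2 : s.2.length = (s.2.length - 1) + 1 := by omega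
    conv_rhs => rw [h2, Function.iterate_succ_apply]

theorem side_left_none (x : Str) (h : G' x = none) : side F' G' (false, x) = false := by
  have h0 : anc F' G' (false, x) = (false, x) := by rw [anc_false, h]
  have : ∀ m, (anc F' G')^[m] (false, x) = (false, x) := fun m => by
    induction m with
    | zero => rfl
    | succ m ihm => rw [Function.iterate_succ_apply, h0, ihm]
  rw [side, this]

theorem side_right_none (y : Str) (h : F' y = none) : side F' G' (true, y) = true := by
  have h0 : anc F' G' (true, y) = (true, y) := by rw [anc_true, h]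
  have : ∀ m, (anc F' G')^[m] (true, y) = (true, y) := fun m => by
    induction m with
    | zero => rfl
    | succ m ihm => rw [Function.iterate_succ_apply, h0, ihm]
  rw [side, this]

/-- the bijection -/
def csb (F : Str → Str) (F' G' : Str → Option Str) (x : Str) : Str :=
  bif side F' G' (false, x) then (G' x).getD [] else F x

/-- its inverse -/
def csbInv (G : Str → Str) (F' G' : Str → Option Str) (y : Str) : Str :=
  bif side F' G' (true, y) then G y else (F' y).getD []

theorem csbInv_csb (hF : ∀ x w, F' w = some x ↔ F x = w) (hG : ∀ x w, G' w = some x ↔ G x = w)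
    (lF : ∀ x, x.length < (F x).length) (lG : ∀ x, x.length < (G x).length) (x : Str) :
    csbInv G F' G' (csb F F' G' x) = x := by
  unfold csb
  cases h : side F' G' (false, x) with
  | false =>
    have h1 : F' (F x) = some x := (hF _ _).2 rfl
    have h2 := side_anc hF hG lF lG (true, F x)
    rw [anc_true, h1] at h2
    simp only at h2
    rw [h] at h2
    simp [csbInv, ← h2, h1]
  | true =>
    cases h1 : G' x with
    | none => rw [side_left_none x h1] at h; exact absurd h (by decide)
    | some y =>
      have h2 := side_anc hF hG lF lG (false, x)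
      rw [anc_false, h1] at h2
      simp only at h2
      rw [h] at h2
      have h3 : G y = x := (hG _ _).1 h1
      simp [csbInv, h2, h3]

theorem csb_csbInv (hF : ∀ x w, F' w = some x ↔ F x = w) (hG : ∀ x w, G' w = some x ↔ G x = w)
    (lF : ∀ x, x.length < (F x).length) (lG : ∀ x, x.length < (G x).length) (y : Str) :
    csb F F' G' (csbInv G F' G' y) = y := by
  unfold csbInv
  cases h : side F' G' (true, y) with
  | true =>
    have h1 : G' (G y) = some y := (hG _ _).2 rfl
    have h2 := side_anc hF hG lF lG (false, G y)
    rw [anc_false, h1] at h2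
    simp only at h2
    rw [h] at h2
    simp [csb, ← h2, h1]
  | false =>
    cases h1 : F' y with
    | none => rw [side_right_none y h1] at h; exact absurd h (by decide)
    | some x =>
      have h2 := side_anc hF hG lF lG (true, y)
      rw [anc_true, h1] at h2
      simp only at h2
      rw [h] at h2
      have h3 : F x = y := (hF _ _).1 h1
      simp [csb, h2, h3]

end anc

variable {O : Set Str}

theorem pto_anc {F' G' : Str → Option Str} (hF : PTO O F') (hG : PTO O G') :
    PTO O (fun s => anc F' G' s) := by
  unfold anc
  have h1 : PTO O (fun s : Bool × Str => F' s.2) :=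
    hF.comp (f := fun s : Bool × Str => s.2) (by fun_prop)
  have h2 : PTO O (fun s : Bool × Str => G' s.2) :=
    hG.comp (f := fun s : Bool × Str => s.2) (by fun_prop)
  refine PTO.cond (by fun_prop) ?_ ?_
  · exact (PTO.option_casesOn (f := fun s => s) (g := fun _ x => (false, x)) h1 (by fun_prop)
      (by fun_prop)).congr (fun s => by cases F' s.2 <;> rfl)
  · exact (PTO.option_casesOn (f := fun s => s) (g := fun _ x => (true, x)) h2 (by fun_prop)
      (by fun_prop)).congr (fun s => by cases G' s.2 <;> rfl)

theorem pto_side {F G : Str → Str} {F' G' : Str → Option Str}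
    (hF : ∀ x w, F' w = some x ↔ F x = w) (hG : ∀ x w, G' w = some x ↔ G x = w)
    (lF : ∀ x, x.length < (F x).length) (lG : ∀ x, x.length < (G x).length)
    (pF : PTO O F') (pG : PTO O G') : PTO O (fun s => side F' G' s) := by
  unfold side
  refine PTO.fst ?_
  refine PTO.iterate (f := fun _ s => anc F' G' s) (n := fun s : Bool × Str => s.2.length)
    (g := fun s => s) ((pto_anc pF pG).comp (by fun_prop)) (by fun_prop) ?_ (by fun_prop)
    (B := fun s => size s) PBd.size ?_
  · exact PBd.size.mono (fun s => by
      have := length_le_size s.2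
      rw [size_prod]; omega)
  · intro s i _
    have : ∀ i, size ((anc F' G')^[i] s) ≤ size s := by
      intro i
      induction i with
      | zero => rfl
      | succ i ih =>
        rw [Function.iterate_succ_apply']
        refine le_trans ?_ ih
        rcases anc_cases hF hG lF lG ((anc F' G')^[i] s) with h | h
        · rw [h]
        · rw [size_prod, size_prod, size_bool, size_bool, size_str, size_str]
          omega
    exact this i

/-- From a many-one reduction to a cylinder we get a length-increasing p-invertible one. -/
theorem exists_invertible {A B : Set Str} (h : MRed O A B) (hB : Cylinder O B) :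
    ∃ (F : Str → Str) (F' : Str → Option Str), PTO O F ∧ PTO O F' ∧
      (∀ x w, F' w = some x ↔ F x = w) ∧ (∀ x, x.length < (F x).length) ∧
      ∀ x, x ∈ A ↔ F x ∈ B := by
  obtain ⟨f, hf, hf'⟩ := h
  obtain ⟨p, ⟨hp, g, hg, hg'⟩, hp'⟩ := hB
  obtain ⟨k, hk⟩ := hg.pbd
  have key : ∀ x : Str, p1 (pr x (pad (2 * k) x)) = x := fun x => p1_pr _ _
  set F : Str → Str := fun x => p (f x, pr x (pad (2 * k) x)) with hFdef
  have hFp : PTO O F := by
    refine hp.comp ?_
    fun_prop
  refine ⟨F, fun w => if F (p1 (g w).2) = w then some (p1 (g w).2) else none, hFp, ?_, ?_, ?_, ?_⟩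
  · have h1 : PTO O (fun w => p1 (g w).2) := PTO.p1 (hg.snd)
    have h2 : PTO O (fun w => F (p1 (g w).2)) := hFp.comp h1
    fun_prop
  · intro x w
    constructor
    · intro h
      beta_reduce at h
      split_ifs at h with h1
      · rw [Option.some.injEq] at h
        rw [h] at h1
        exact h1
    · intro h
      have h1 : p1 (g w).2 = x := by
        rw [← h, hFdef]
        simp only [hg', key]
      beta_reduce
      rw [if_pos (by rw [h1, h]), h1]
  · intro x
    by_contra hlt
    rw [not_lt] at hlt
    have h1 := hk (F x)
    beta_reduce at h1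
    have h2 : g (F x) = (f x, pr x (pad (2 * k) x)) := hg' _
    rw [h2, size_pair, size_str, size_str, size_str, length_pr, length_pad] at h1
    have h3 : (3 * (F x).length + 2) ^ k ≤ (x.length + 2) ^ (2 * k) := by
      rw [pow_mul]
      refine Nat.pow_le_pow_left ?_ _
      nlinarith
    omega
  · intro x
    rw [hf' x, hFdef]
    exact (hp' _ _).symm

/-- Two m-equivalent cylinders are p-isomorphic (Berman-Hartmanis), relative to an oracle. -/
theorem pIso_of_cylinders {A B : Set Str} (hA : Cylinder O A) (hB : Cylinder O B)
    (h1 : MRed O A B) (h2 : MRed O B A) : PIso O A B := by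
  obtain ⟨F, F', pF, pF', hF, lF, mF⟩ := exists_invertible h1 hB
  obtain ⟨G, G', pG, pG', hG, lG, mG⟩ := exists_invertible h2 hA
  have hs := pto_side hF hG lF lG pF' pG'
  refine ⟨⟨csb F F' G', csbInv G F' G', csbInv_csb hF hG lF lG, csb_csbInv hF hG lF lG⟩,
    ?_, ?_, ?_⟩
  · show PTO O (fun x => csb F F' G' x)
    unfold csb
    have : PTO O (fun x : Str => side F' G' (false, x)) := hs.comp (by fun_prop)
    fun_prop
  · show PTO O (fun x => csbInv G F' G' x)
    unfold csbInv
    have : PTO O (fun x : Str => side F' G' (true, x)) := hs.comp (by fun_prop)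
    fun_prop
  · intro x
    show x ∈ A ↔ csb F F' G' x ∈ B
    unfold csb
    cases h : side F' G' (false, x) with
    | false => exact mF x
    | true =>
      cases h3 : G' x with
      | none => rw [side_left_none x h3] at h; exact absurd h (by decide)
      | some y =>
        have h4 : G y = x := (hG _ _).1 h3
        simp only [cond_true, Option.getD_some]
        rw [mG y, h4]

/-- Thinning implies collapse. -/
theorem collapse_of_thinning (h : Thinning O) : CylindricalDegreesCollapse O := by
  have key : ∀ A, Cylinder O A → ∀ B, OneEquiv O A B → PIso O B A := by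
    rintro A hA B ⟨⟨e, he, ei, he'⟩, ⟨f, hf, _, hf'⟩⟩
    obtain ⟨p, ⟨hp, g, hg, hg'⟩, hp'⟩ := hA
    have hB : Cylinder O B := by
      obtain ⟨ψ, hψ, hψ'⟩ := h (fun v => e (p (f v.1, pr v.1 v.2)))
        (he.comp (hp.comp (by fun_prop))) (by
          rintro ⟨x, y⟩ ⟨x', y'⟩ hv
          have h1 := congrArg g (ei hv)
          simp only [hg', Prod.mk.injEq] at h1
          obtain ⟨h2, h3⟩ := pr_inj.1 h1.2
          rw [h2, h3])
      refine ⟨ψ, hψ, fun x y => ?_⟩
      have h1 : ∀ {z w : Str}, Relation.ReflTransGen
          (fun z w => ∃ u, w = (fun v : Str × Str => e (p (f v.1, pr v.1 v.2))) (z, u)) z w →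
          (w ∈ B ↔ z ∈ B) := by
        intro z w hzw
        induction hzw with
        | refl => rfl
        | tail _ h ih =>
          obtain ⟨u, hu⟩ := h
          rw [← ih, hu]
          simp only
          rw [← he', hp', ← hf']
      exact h1 (hψ' x y)
    exact pIso_of_cylinders hB ⟨p, ⟨hp, g, hg, hg'⟩, hp'⟩ ⟨f, hf, hf'⟩ ⟨e, he, he'⟩
  intro A hA B C hB hC
  exact (key A hA B hB).trans (key A hA C hC).symm

end Pool.Agent.Helper86.Cyl
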