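import Pool.Agent.Helper86.Cyl.KSet
import Mathlib.Combinatorics.Hall.Basic

/-!
Systems of distinct representatives.
-/

namespace Pool.Agent.Helper86.Cyl

open Pool.Agent.PolyTime Pool.Agent.Helper86.Rel

/-- strings of length `m` -/
def strs (m : ℕ) : Finset Str := (Finset.univ : Finset (Fin m → Bool)).image List.ofFn

theorem mem_strs {m : ℕ} {s : Str} : s ∈ strs m ↔ s.length = m := by
  simp only [strs, Finset.mem_image, Finset.mem_univ, true_and]
  constructor
  · rintro ⟨f, rfl⟩
    simp
  · rintro rfl
    exact ⟨s.get, List.ofFn_get s⟩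

theorem card_strs (m : ℕ) : (strs m).card = 2 ^ m := by
  rw [strs, Finset.card_image_of_injective _ List.ofFn_injective]
  simp

/-- strings of length less than `n` -/
def strsLt (n : ℕ) : Finset Str := (Finset.range n).biUnion strs

theorem mem_strsLt {n : ℕ} {s : Str} : s ∈ strsLt n ↔ s.length < n := by
  simp [strsLt, mem_strs]

theorem card_strsLt (n : ℕ) : (strsLt n).card < 2 ^ n := by
  have h1 : (strsLt n).card ≤ ∑ m ∈ Finset.range n, 2 ^ m := by
    refine Finset.card_biUnion_le.trans ?_
    exact Finset.sum_le_sum (fun m _ => (card_strs m).le)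
  have h2 : ∑ m ∈ Finset.range n, 2 ^ m < 2 ^ n := Nat.geomSum_lt le_rfl (by simp)
  omega

/-- triples: input `x`, input `y`, known secrets -/
abbrev Trip : Type := Str × Str × List Str

/-- the secrets below `P.length` come from `P`, the other ones from the list `τ` -/
def GP (P : List (Option Str)) (τ : List Str) (j : ℕ) : Option Str :=
  if j < P.length then P.getD j none else τ.find? (fun r => decide (r.length = j ^ 2))

/-- the value of the code `c` on `(x, y')`, for a given part `X` of `K` and known secrets `τ` -/
noncomputable def vl (c : Code) (X : Set Str) (P : List (Option Str)) (τ : List Str) (x y : Str) :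
    Str := c.eval (join X (GP P τ)) (pr x y)

/-- a good choice of the second argument -/
def Good (c : Code) (X : Set Str) (P : List (Option Str)) (n : ℕ) (f : Trip → Str) : Prop :=
  (∀ T : Trip, size T ≤ n → (f T).length = n + 2) ∧
  (∀ T : Trip, size T ≤ n → n ≤ (vl c X P T.2.2 T.1 (f T)).length) ∧
  ∀ T T' : Trip, size T ≤ n → size T' ≤ n →
    vl c X P T.2.2 T.1 (f T) = vl c X P T'.2.2 T'.1 (f T') → T = T'

theorem exists_good {c : Code} {X : Set Str} {P : List (Option Str)} {n : ℕ}
    (hinj : ∀ (τ : List Str) (x y y' : Str), x.length ≤ n → y.length = n + 2 →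
      y'.length = n + 2 → vl c X P τ x y = vl c X P τ x y' → y = y') :
    ∃ f, Good c X P n f := by
  classical
  let ι := {T : Trip // size T ≤ n}
  have hfin : Finite ι := by
    let g : ι → {s : Str // s ∈ strsLt (n + 1)} := fun T => ⟨enc T.1, by
      rw [mem_strsLt]
      have : (enc T.1).length = size T.1 := rfl
      have := T.2
      omega⟩
    have hg : Function.Injective g := by
      intro T T' h
      have := congrArg Subtype.val h
      exact Subtype.ext (enc_inj.1 this)
    exact Finite.of_injective g hg
  have : Fintype ι := Fintype.ofFinite ι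
  have hcard : Fintype.card ι < 2 ^ (n + 1) := by
    refine lt_of_le_of_lt ?_ (card_strsLt (n + 1))
    have : Fintype.card ι = (Finset.univ : Finset ι).card := rfl
    rw [this, ← Finset.card_image_of_injective (Finset.univ : Finset ι)
      (f := fun T : ι => enc T.1) (fun T T' h => Subtype.ext (enc_inj.1 h))]
    apply Finset.card_le_card
    intro s hs
    rw [Finset.mem_image] at hs
    obtain ⟨T, _, rfl⟩ := hs
    rw [mem_strsLt]
    have h1 : (enc T.1).length = size T.1 := rfl
    have := T.2
    omega
  have hx : ∀ T : ι, T.1.1.length ≤ n := by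
    intro T
    have h1 := T.2
    rw [size_prod, size_str] at h1
    omega
  let W : ι → Finset Str := fun T =>
    ((strs (n + 2)).image (fun y => vl c X P T.1.2.2 T.1.1 y)).filter (fun w => n ≤ w.length)
  have hW : ∀ T, Fintype.card ι ≤ (W T).card := by
    intro T
    have h1 : ((strs (n + 2)).image (fun y => vl c X P T.1.2.2 T.1.1 y)).card = 2 ^ (n + 2) := by
      rw [Finset.card_image_of_injOn, card_strs]
      intro y hy y' hy' h
      exact hinj _ _ _ _ (hx T) (mem_strs.1 hy) (mem_strs.1 hy') h
    have h2 := Finset.card_filter_add_card_filter_not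
      (s := (strs (n + 2)).image (fun y => vl c X P T.1.2.2 T.1.1 y)) (fun w => n ≤ w.length)
    have h3 : (((strs (n + 2)).image (fun y => vl c X P T.1.2.2 T.1.1 y)).filter
        (fun w => ¬ n ≤ w.length)).card ≤ (strsLt n).card := by
      apply Finset.card_le_card
      intro w hw
      rw [Finset.mem_filter] at hw
      rw [mem_strsLt]
      omega
    have h4 := card_strsLt n
    have h5 : 2 ^ (n + 2) = 4 * 2 ^ n := by ring
    have h6 : 2 ^ (n + 1) = 2 * 2 ^ n := by ring
    show _ ≤ (((strs (n + 2)).image (fun y => vl c X P T.1.2.2 T.1.1 y)).filter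
      (fun w => n ≤ w.length)).card
    omega
  obtain ⟨w, hwi, hwm⟩ := (Finset.all_card_le_biUnion_card_iff_exists_injective W).1 (by
    intro s
    rcases s.eq_empty_or_nonempty with rfl | ⟨T, hT⟩
    · simp
    · calc s.card ≤ Fintype.card ι := Finset.card_le_univ s
        _ ≤ (W T).card := hW T
        _ ≤ (s.biUnion W).card := Finset.card_le_card (Finset.subset_biUnion_of_mem W hT))
  have hy : ∀ T : ι, ∃ y : Str, y.length = n + 2 ∧ vl c X P T.1.2.2 T.1.1 y = w T ∧
      n ≤ (w T).length := by
    intro T
    have h1 := hwm T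
    simp only [W, Finset.mem_filter, Finset.mem_image] at h1
    obtain ⟨⟨y, hy, hy'⟩, h2⟩ := h1
    exact ⟨y, mem_strs.1 hy, hy', h2⟩
  choose y hy1 hy2 hy3 using hy
  refine ⟨fun T => if h : size T ≤ n then y ⟨T, h⟩ else [], ?_, ?_, ?_⟩
  · intro T hT
    beta_reduce
    rw [dif_pos hT, hy1]
  · intro T hT
    beta_reduce
    rw [dif_pos hT]
    have := hy3 ⟨T, hT⟩
    rw [← hy2] at this
    exact this
  · intro T T' hT hT' h
    beta_reduce at h
    rw [dif_pos hT, dif_pos hT'] at h
    have h1 := hy2 ⟨T, hT⟩
    have h2 := hy2 ⟨T', hT'⟩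
    have h3 : w ⟨T, hT⟩ = w ⟨T', hT'⟩ := by
      rw [← h1, ← h2]
      exact h
    exact congrArg Subtype.val (hwi h3)

open Classical in
/-- the chosen second arguments -/
noncomputable def chY (c : Code) (X : Set Str) (P : List (Option Str)) (n : ℕ) : Trip → Str :=
  if h : ∃ f, Good c X P n f then h.choose else fun _ => []

theorem chY_good {c : Code} {X : Set Str} {P : List (Option Str)} {n : ℕ}
    (h : ∃ f, Good c X P n f) : Good c X P n (chY c X P n) := by
  rw [chY, dif_pos h]
  exact h.choose_spec

theorem length_chY_le (c : Code) (X : Set Str) (P : List (Option Str)) (n : ℕ) {T : Trip}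
    (hT : size T ≤ n) : (chY c X P n T).length ≤ n + 2 := by
  rw [chY]
  split_ifs with h
  · exact (h.choose_spec.1 T hT).le
  · simp

theorem length_input_le (c : Code) (X : Set Str) (P : List (Option Str)) (n : ℕ) {T : Trip}
    (hT : size T ≤ n) : (pr T.1 (chY c X P n T)).length ≤ 3 * n + 3 := by
  rw [length_pr]
  have h1 := length_chY_le c X P n hT
  rw [size_prod, size_str] at hT
  omega

/-- bound for the resources at level `n` -/
noncomputable def lb (c : Code) (n : ℕ) : ℕ := (3 * n + 5) ^ cexp c

theorem resource_le (c : Code) (X : Set Str) (P : List (Option Str)) (n : ℕ) {T : Trip}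
    (hT : size T ≤ n) : ((pr T.1 (chY c X P n T)).length + 2) ^ cexp c ≤ lb c n :=
  Nat.pow_le_pow_left (by have := length_input_le c X P n hT; omega) _

/-- the part of `K` that is relevant at level `n` -/
def cut (K : Set Str) (B : ℕ) : Set Str := {w | w ∈ K ∧ w.length < B}

theorem cut_cut {K : Set Str} {B B' : ℕ} (h : B ≤ B') : cut (cut K B') B = cut K B := by
  ext w
  simp only [cut, Set.mem_ofPred_eq]
  constructor
  · rintro ⟨⟨h1, _⟩, h2⟩; exact ⟨h1, h2⟩
  · rintro ⟨h1, h2⟩; exact ⟨⟨h1, by omega⟩, h2⟩

/-- recognise stored secrets among the queries -/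
noncomputable def parse (q : Str) : Option (Str × Str) := by
  classical
  exact if h : ∃ v : ℕ × Str, q = true :: addr v.1 v.2 ∧ v.2.length = v.1 ^ 2 then
    some (h.choose.2, q) else none

theorem parse_addr {j : ℕ} {r : Str} (hr : r.length = j ^ 2) :
    parse (true :: addr j r) = some (r, true :: addr j r) := by
  have h : ∃ v : ℕ × Str, true :: addr j r = true :: addr v.1 v.2 ∧ v.2.length = v.1 ^ 2 :=
    ⟨(j, r), rfl, hr⟩
  rw [parse, dif_pos h]
  have h1 := (addr_inj (List.cons.inj h.choose_spec.1).2).2
  exact congrArg (fun s => some (s, true :: addr j r)) h1.symm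

theorem parse_eq_some {q : Str} {v : Str × Str} (h : parse q = some v) :
    v.2 = q ∧ ∃ j, q = true :: addr j v.1 ∧ v.1.length = j ^ 2 := by
  rw [parse] at h
  split_ifs at h with h1
  · rw [Option.some.injEq] at h
    subst h
    exact ⟨rfl, h1.choose.1, h1.choose_spec.1, h1.choose_spec.2⟩

/-- the answer of the oracle on a triple: the possibly relevant secrets, and the value -/
noncomputable def ansT (c : Code) (K : Set Str) (P : List (Option Str)) (n : ℕ) (T : Trip) :
    List (Str × Str) × Str := by
  classical
  exact if size T ≤ n then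
    ((uses c (join (cut K (lb c n)) (GP P T.2.2))
        (pr T.1 (chY c (cut K (lb c n)) P n T))).toList.filterMap parse,
      vl c (cut K (lb c n)) P T.2.2 T.1 (chY c (cut K (lb c n)) P n T))
    else ([], [])

/-- the answer of the oracle on a value -/
noncomputable def ansI (c : Code) (K : Set Str) (P : List (Option Str)) (n : ℕ) (w : Str) :
    Str × Str := by
  classical
  exact if h : ∃ T : Trip, size T ≤ n ∧
      vl c (cut K (lb c n)) P T.2.2 T.1 (chY c (cut K (lb c n)) P n T) = w then
    (h.choose.1, h.choose.2.1) else ([], [])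

theorem ansT_cut {c : Code} {K : Set Str} {P : List (Option Str)} {n : ℕ} {T : Trip} {B : ℕ}
    (h : lb c n ≤ B) : ansT c (cut K B) P n T = ansT c K P n T := by
  simp only [ansT, cut_cut h]

theorem ansI_cut {c : Code} {K : Set Str} {P : List (Option Str)} {n : ℕ} {w : Str} {B : ℕ}
    (h : lb c n ≤ B) : ansI c (cut K B) P n w = ansI c K P n w := by
  unfold ansI
  rw [cut_cut h]

theorem size_filterMap_parse_le {l : List Str} {b : ℕ} (h : ∀ q ∈ l, q.length ≤ b) :
    size (l.filterMap parse) ≤ l.length * (18 * b + 3) := by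
  have h1 : (l.filterMap parse).length ≤ l.length := List.length_filterMap_le _ _
  have h2 : ∀ v ∈ l.filterMap parse, size v ≤ 9 * b + 1 := by
    intro v hv
    rw [List.mem_filterMap] at hv
    obtain ⟨q, hq, hv⟩ := hv
    obtain ⟨h3, j, h4, _⟩ := parse_eq_some hv
    have h5 := h q hq
    have h6 : v.1.length ≤ q.length := by
      rw [h4, List.length_cons, length_addr]
      have := Nat.one_le_two_pow (n := j)
      omega
    rw [size_prod, size_str, size_str, h3]
    omega
  refine (size_le_of_forall h2).trans ?_
  refine (Nat.mul_le_mul_right _ h1).trans ?_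
  exact Nat.mul_le_mul_left _ (by omega)

theorem size_ansT_le (c : Code) (K : Set Str) (P : List (Option Str)) (n : ℕ) (T : Trip) :
    size (ansT c K P n T) ≤ 2 * (lb c n * (18 * lb c n + 3)) + 1 + 3 * lb c n := by
  rw [ansT]
  split_ifs with h
  · have h1 := resource_le c (cut K (lb c n)) P n h
    obtain ⟨h2, h3, _⟩ := uses_spec c (join (cut K (lb c n)) (GP P T.2.2))
      (pr T.1 (chY c (cut K (lb c n)) P n T))
    rw [size_pair]
    have h4 := size_filterMap_parse_le (b := lb c n) (l := (uses c (join (cut K (lb c n))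
      (GP P T.2.2)) (pr T.1 (chY c (cut K (lb c n)) P n T))).toList) (fun q hq =>
        (h3 q (Finset.mem_toList.1 hq)).trans h1)
    rw [Finset.length_toList] at h4
    have h5 := Nat.mul_le_mul_right (18 * lb c n + 3) (h2.trans h1)
    have h6 : (vl c (cut K (lb c n)) P T.2.2 T.1 (chY c (cut K (lb c n)) P n T)).length ≤
        lb c n := (length_eval _ _ _).trans h1
    rw [size_str]
    omega
  · rw [size_pair, size_nil, size_nil]
    omega

theorem size_ansI_le (c : Code) (K : Set Str) (P : List (Option Str)) (n : ℕ) (w : Str) :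
    size (ansI c K P n w) ≤ 2 * n + 1 := by
  rw [ansI]
  split_ifs with h
  · have h1 := h.choose_spec.1
    rw [size_prod, size_prod] at h1
    rw [size_pair]
    omega
  · rw [size_pair, size_nil]
    omega

end Pool.Agent.Helper86.Cyl
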