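import Pool.Agent.Helper86.Rel.Strings

/-!
One-one reductions, p-isomorphisms, cylinders and collapse, relative to an oracle.
-/

namespace Pool.Agent.Helper86.Cyl

open Pool.Agent.PolyTime Pool.Agent.Helper86.Rel

/-- Binary strings. -/
abbrev Str : Type := List Bool

/-- Polynomial-time many-one reducibility relative to the oracle `O`. -/
def MRed (O A B : Set Str) : Prop := ∃ f : Str → Str, PTO O f ∧ ∀ x, x ∈ A ↔ f x ∈ B

/-- Polynomial-time one-one reducibility relative to the oracle `O`. -/
def OneRed (O A B : Set Str) : Prop :=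
  ∃ f : Str → Str, PTO O f ∧ Function.Injective f ∧ ∀ x, x ∈ A ↔ f x ∈ B

/-- 1-equivalence relative to `O`. -/
def OneEquiv (O A B : Set Str) : Prop := OneRed O A B ∧ OneRed O B A

/-- p-isomorphism relative to `O`. -/
def PIso (O A B : Set Str) : Prop :=
  ∃ h : Str ≃ Str, PTO O (fun x => h x) ∧ PTO O (fun x => h.symm x) ∧ ∀ x, x ∈ A ↔ h x ∈ B

/-- `p` is computable in polynomial time and p-invertible (hence one-one), relative to `O`. -/
def PInvertible (O : Set Str) (p : Str × Str → Str) : Prop :=
  PTO O p ∧ ∃ g : Str → Str × Str, PTO O g ∧ ∀ v, g (p v) = v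

/-- `A` is a cylinder: it has a p-invertible padding function (relative to `O`). -/
def Cylinder (O A : Set Str) : Prop :=
  ∃ p : Str × Str → Str, PInvertible O p ∧ ∀ x y, p (x, y) ∈ A ↔ x ∈ A

/-- Every cylindrical 1-degree collapses (relative to `O`): any two members of a 1-degree that
contains a cylinder are p-isomorphic. -/
def CylindricalDegreesCollapse (O : Set Str) : Prop :=
  ∀ A, Cylinder O A → ∀ B C, OneEquiv O A B → OneEquiv O A C → PIso O B C

/-- Every one-one polynomial-time function `q(x,y)` can be thinned to a p-invertible one: there is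
a p-invertible `ψ(x,y)` each of whose values is obtained from `x` by repeatedly applying
`z ↦ q(z,u)` with suitable strings `u`. -/
def Thinning (O : Set Str) : Prop :=
  ∀ q : Str × Str → Str, PTO O q → Function.Injective q →
    ∃ ψ : Str × Str → Str, PInvertible O ψ ∧
      ∀ x y, Relation.ReflTransGen (fun z w => ∃ u, w = q (z, u)) x (ψ (x, y))

theorem MRed.trans {O A B C : Set Str} (h1 : MRed O A B) (h2 : MRed O B C) : MRed O A C := by
  obtain ⟨f, hf, hf'⟩ := h1
  obtain ⟨g, hg, hg'⟩ := h2
  exact ⟨fun x => g (f x), hg.comp hf, fun x => (hf' x).trans (hg' _)⟩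

theorem OneRed.mRed {O A B : Set Str} (h : OneRed O A B) : MRed O A B := by
  obtain ⟨f, hf, _, hf'⟩ := h
  exact ⟨f, hf, hf'⟩

theorem OneRed.trans {O A B C : Set Str} (h1 : OneRed O A B) (h2 : OneRed O B C) :
    OneRed O A C := by
  obtain ⟨f, hf, fi, hf'⟩ := h1
  obtain ⟨g, hg, gi, hg'⟩ := h2
  exact ⟨fun x => g (f x), hg.comp hf, gi.comp fi, fun x => (hf' x).trans (hg' _)⟩

theorem PIso.symm {O A B : Set Str} (h : PIso O A B) : PIso O B A := by
  obtain ⟨e, h1, h2, h3⟩ := h
  refine ⟨e.symm, h2, by simpa using h1, fun x => ?_⟩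
  rw [h3]
  simp

theorem PIso.trans {O A B C : Set Str} (h : PIso O A B) (h' : PIso O B C) : PIso O A C := by
  obtain ⟨e, h1, h2, h3⟩ := h
  obtain ⟨e', h1', h2', h3'⟩ := h'
  refine ⟨e.trans e', ?_, ?_, fun x => ?_⟩
  · exact h1'.comp h1
  · exact h2.comp h2'
  · rw [h3, h3']
    rfl

end Pool.Agent.Helper86.Cyl
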