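import Pool.Agent.Helper86.Cyl.Thin

/-!
The generic choice of the secrets, and the separation of P from UP.
-/

namespace Pool.Agent.Helper86.Cyl

open Pool.Agent.PolyTime Pool.Agent.Helper86.Rel

/-- `L` belongs to P relative to `O`. -/
def InP (O L : Set Str) : Prop := ∃ f : Str → Bool, PTO O f ∧ ∀ x, f x = true ↔ x ∈ L

/-- `L` belongs to UP relative to `O`: short witnesses, at most one for each input. -/
def InUP (O L : Set Str) : Prop := ∃ (f : Str × Str → Bool) (k : ℕ), PTO O f ∧
  (∀ x, x ∈ L ↔ ∃ y, y.length ≤ (x.length + 2) ^ k ∧ f (x, y) = true) ∧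
  ∀ x y y', y.length ≤ (x.length + 2) ^ k → y'.length ≤ (x.length + 2) ^ k →
    f (x, y) = true → f (x, y') = true → y = y'

theorem exists_generic_seq {I : Type} [Countable I] [Nonempty I]
    (Req : I → (ℕ → Option Str) → Prop)
    (dense : ∀ i g, Valid g → ∀ d, ∃ (g' : ℕ → Option Str) (d' : ℕ), Valid g' ∧ d ≤ d' ∧
      (∀ j < d, g' j = g j) ∧ ∀ G, Valid G → (∀ j < d', G j = g' j) → Req i G) :
    ∃ G, Valid G ∧ ∀ i, Req i G := by
  classical
  obtain ⟨s, hs⟩ := exists_surjective_nat I
  let St := {p : (ℕ → Option Str) × ℕ // Valid p.1}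
  have step : ∀ (n : ℕ) (p : St), ∃ p' : St, p.1.2 < p'.1.2 ∧
      (∀ j < p.1.2, p'.1.1 j = p.1.1 j) ∧
      ∀ G, Valid G → (∀ j < p'.1.2, G j = p'.1.1 j) → Req (s n) G := by
    intro n p
    obtain ⟨g', d', h1, h2, h3, h4⟩ := dense (s n) p.1.1 p.2 p.1.2
    exact ⟨⟨(g', d' + 1), h1⟩, by show _ < d' + 1; omega, h3,
      fun G hG h => h4 G hG (fun j hj => h j (by show j < d' + 1; omega))⟩
  choose nxt hn1 hn2 hn3 using step
  let st : ℕ → St := fun n => Nat.rec ⟨(fun _ => none, 0), fun j r h => by simp at h⟩
    (fun n p => nxt n p) n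
  have hst : ∀ n, st (n + 1) = nxt n (st n) := fun n => rfl
  have hd : ∀ n, n ≤ (st n).1.2 := by
    intro n
    induction n with
    | zero => exact Nat.zero_le _
    | succ n ih =>
      rw [hst]
      have := hn1 n (st n)
      omega
  have hmono : ∀ m n, m ≤ n → (st m).1.2 ≤ (st n).1.2 ∧
      ∀ j < (st m).1.2, (st n).1.1 j = (st m).1.1 j := by
    intro m n h
    induction h with
    | refl => exact ⟨le_rfl, fun _ _ => rfl⟩
    | @step n _ ih =>
      show (st m).1.2 ≤ (st (n + 1)).1.2 ∧ ∀ j < (st m).1.2, (st (n + 1)).1.1 j = (st m).1.1 j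
      rw [hst]
      refine ⟨by have := hn1 n (st n); omega, fun j hj => ?_⟩
      rw [hn2 n (st n) j (by omega), ih.2 j hj]
  let G : ℕ → Option Str := fun j => (st (j + 1)).1.1 j
  have hG : ∀ n, ∀ j < (st n).1.2, G j = (st n).1.1 j := by
    intro n j hj
    rcases Nat.le_total (j + 1) n with h | h
    · exact ((hmono _ _ h).2 j (by have := hd (j + 1); omega)).symm
    · exact (hmono _ _ h).2 j hj
  have hV : Valid G := fun j r h => (st (j + 1)).2 j r h
  refine ⟨G, hV, fun i => ?_⟩
  obtain ⟨n, rfl⟩ := hs i
  refine hn3 n (st n) G hV (fun j hj => ?_)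
  rw [← hst] at hj ⊢
  exact hG (n + 1) j hj

/-- either injectivity is decided, or the function is not injective -/
def ReqInj (K : Set Str) (c : Code) (G : ℕ → Option Str) : Prop :=
  (∃ d, ∀ G', Valid G' → (∀ j < d, G' j = G j) →
    Function.Injective (fun v : Str × Str => c.eval (join K G') (pr v.1 v.2))) ∨
  ¬ Function.Injective (fun v : Str × Str => c.eval (join K G) (pr v.1 v.2))

theorem dense_reqInj (K : Set Str) (c : Code) (g : ℕ → Option Str) (hg : Valid g) (d : ℕ) :
    ∃ (g' : ℕ → Option Str) (d' : ℕ), Valid g' ∧ d ≤ d' ∧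
      (∀ j < d, g' j = g j) ∧ ∀ G, Valid G → (∀ j < d', G j = g' j) → ReqInj K c G := by
  by_cases h : ∃ G', Valid G' ∧ (∀ j < d, G' j = g j) ∧
      ¬ Function.Injective (fun v : Str × Str => c.eval (join K G') (pr v.1 v.2))
  · obtain ⟨G', h1, h2, h3⟩ := h
    rw [Function.not_injective_iff] at h3
    obtain ⟨v, v', h4, h5⟩ := h3
    refine ⟨G', d + ((pr v.1 v.2).length + 2) ^ cexp c + ((pr v'.1 v'.2).length + 2) ^ cexp c,
      h1, by omega, h2, fun G hG hag => Or.inr ?_⟩
    rw [Function.not_injective_iff]
    have hlt := (Nat.lt_two_pow_self (n := d + ((pr v.1 v.2).length + 2) ^ cexp c +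
      ((pr v'.1 v'.2).length + 2) ^ cexp c))
    refine ⟨v, v', ?_, h5⟩
    rw [eval_congr_agree c (by omega) hag, eval_congr_agree c (by omega) hag]
    exact h4
  · refine ⟨g, d, hg, le_rfl, fun _ _ => rfl, fun G _ hag => Or.inl ⟨d, fun G' hG' h' => ?_⟩⟩
    by_contra hcon
    exact h ⟨G', hG', fun j hj => (h' j hj).trans (hag j hj), hcon⟩

open Classical in
/-- the code `c` does not decide which secrets exist -/
def ReqSep (K : Set Str) (c : Code) (G : ℕ → Option Str) : Prop :=
  ∃ j, c.eval (join K G) (enc (List.replicate (2 ^ j) true)) ≠ [decide (∃ r, G j = some r)]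

theorem exists_big (d k : ℕ) : ∃ j ≥ d, (3 * 2 ^ j + 2) ^ k < 2 ^ (j ^ 2) := by
  refine ⟨d + 4 * (k + 1), by omega, ?_⟩
  set j := d + 4 * (k + 1) with hj
  have h1 : 3 * 2 ^ j + 2 ≤ 2 ^ (j + 3) := by
    have : 2 ^ (j + 3) = 8 * 2 ^ j := by ring
    have := Nat.one_le_two_pow (n := j)
    omega
  refine lt_of_le_of_lt (Nat.pow_le_pow_left h1 k) ?_
  rw [← pow_mul]
  refine Nat.pow_lt_pow_right (by norm_num) ?_
  have : 4 * (k + 1) ≤ j := by omega
  nlinarith

theorem dense_reqSep (K : Set Str) (c : Code) (g : ℕ → Option Str) (hg : Valid g) (d : ℕ) :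
    ∃ (g' : ℕ → Option Str) (d' : ℕ), Valid g' ∧ d ≤ d' ∧
      (∀ j < d, g' j = g j) ∧ ∀ G, Valid G → (∀ j < d', G j = g' j) → ReqSep K c G := by
  classical
  obtain ⟨j, hj, hjk⟩ := exists_big d (cexp c)
  set z : Str := enc (List.replicate (2 ^ j) true) with hz
  have hzl : z.length = 3 * 2 ^ j := by
    have : z.length = size (List.replicate (2 ^ j) true) := rfl
    rw [this, size_str, List.length_replicate]
  let g0 : ℕ → Option Str := fun i => if i < d then g i else none
  have hg0 : Valid g0 := by
    intro i r h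
    simp only [g0] at h
    split_ifs at h
    exact hg i r h
  obtain ⟨hQ1, hQ2, hQ3⟩ := uses_spec c (join K g0) z
  rw [hzl] at hQ1 hQ2
  have hlt := Nat.lt_two_pow_self (n := (j + 1) + (3 * 2 ^ j + 2) ^ cexp c)
  by_cases h : c.eval (join K g0) z = [true]
  · refine ⟨g0, (j + 1) + (3 * 2 ^ j + 2) ^ cexp c, hg0, by omega, fun i hi => if_pos hi,
      fun G hG hag => ⟨j, ?_⟩⟩
    rw [← hz, eval_congr_agree c (by rw [hzl]; omega) hag, h]
    have : G j = none := by
      rw [hag j (by omega)]
      exact if_neg (by omega)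
    simp [this]
  · obtain ⟨r, hr, hrQ⟩ : ∃ r ∈ strs (j ^ 2), true :: addr j r ∉ uses c (join K g0) z := by
      by_contra hcon
      push Not at hcon
      have h1 : ((strs (j ^ 2)).image (fun r => true :: addr j r)).card = 2 ^ (j ^ 2) := by
        rw [Finset.card_image_of_injective, card_strs]
        intro r r' h
        exact (addr_inj (List.cons.inj h).2).2
      have h2 : ((strs (j ^ 2)).image (fun r => true :: addr j r)) ⊆ uses c (join K g0) z := by
        intro q hq
        rw [Finset.mem_image] at hq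
        obtain ⟨r, hr, rfl⟩ := hq
        exact hcon r hr
      have h3 := Finset.card_le_card h2
      omega
    rw [mem_strs] at hr
    let g1 : ℕ → Option Str := Function.update g0 j (some r)
    have hg1 : Valid g1 := by
      intro i s h
      by_cases hi : i = j
      · subst hi
        simp only [g1, Function.update_self, Option.some.injEq] at h
        rw [← h, hr]
      · simp only [g1, Function.update_of_ne hi] at h
        exact hg0 i s h
    refine ⟨g1, (j + 1) + (3 * 2 ^ j + 2) ^ cexp c, hg1, by omega, fun i hi => ?_,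
      fun G hG hag => ⟨j, ?_⟩⟩
    · simp only [g1]
      rw [Function.update_of_ne (by omega)]
      exact if_pos hi
    · rw [← hz, eval_congr_agree c (by rw [hzl]; omega) hag]
      have h1 : c.eval (join K g1) z = c.eval (join K g0) z := by
        apply hQ3
        intro q hq
        rcases q with _ | ⟨b, u⟩
        · exact iff_of_false (nil_notMem_join _ _) (nil_notMem_join _ _)
        · cases b with
          | false => rw [false_mem_join, false_mem_join]
          | true =>
            rw [true_mem_join, true_mem_join]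
            constructor
            · rintro ⟨i, s, hi, rfl⟩
              refine ⟨i, s, ?_, rfl⟩
              by_cases hij : i = j
              · subst hij
                simp only [g1, Function.update_self, Option.some.injEq] at hi
                subst hi
                exact absurd hq hrQ
              · simpa only [g1, Function.update_of_ne hij] using hi
            · rintro ⟨i, s, hi, rfl⟩
              refine ⟨i, s, ?_, rfl⟩
              by_cases hij : i = j
              · subst hij
                simp only [g0] at hi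
                rw [if_neg (by omega)] at hi
                simp at hi
              · simpa only [g1, Function.update_of_ne hij] using hi
      rw [h1]
      have h2 : ∃ s, G j = some s := by
        refine ⟨r, ?_⟩
        rw [hag j (by omega)]
        simp [g1]
      simpa [h2] using h

/-- which secrets exist -/
def secretLang (G : ℕ → Option Str) : Set Str :=
  {x | ∃ j r, G j = some r ∧ x = List.replicate (2 ^ j) true}

theorem secretLang_notInP {K : Set Str} {G : ℕ → Option Str} (h : ∀ c, ReqSep K c G) :
    ¬ InP (join K G) (secretLang G) := by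
  classical
  rintro ⟨f, ⟨F, hF, hF'⟩, hf⟩
  obtain ⟨c, hc⟩ := exists_code hF
  obtain ⟨j, hj⟩ := h c
  apply hj
  rw [hc, hF', enc_bool]
  congr 1
  have h1 := hf (List.replicate (2 ^ j) true)
  have h2 : List.replicate (2 ^ j) true ∈ secretLang G ↔ ∃ r, G j = some r := by
    constructor
    · rintro ⟨i, r, hi, hx⟩
      have h3 := congrArg List.length hx
      simp only [List.length_replicate] at h3
      have h4 : j = i := Nat.pow_right_injective le_rfl h3
      subst h4
      exact ⟨r, hi⟩
    · rintro ⟨r, hr⟩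
      exact ⟨j, r, hr, rfl⟩
  rw [h2] at h1
  by_cases h3 : ∃ r, G j = some r
  · rw [h1.2 h3]
    simp [h3]
  · have h4 : f (List.replicate (2 ^ j) true) = false := by
      rw [Bool.eq_false_iff]
      exact fun h => h3 (h1.1 h)
    rw [h4]
    simp [h3]

theorem secretLang_inUP {K : Set Str} {G : ℕ → Option Str} (hG : Valid G) :
    InUP (join K G) (secretLang G) := by
  classical
  have key : ∀ x r : Str, (x.all (fun b => b) && decide (true :: (x ++ false :: r) ∈ join K G)) =
      true ↔ ∃ j, G j = some r ∧ x = List.replicate (2 ^ j) true := by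
    intro x r
    rw [Bool.and_eq_true, decide_eq_true_eq, true_mem_join, List.all_eq_true]
    constructor
    · rintro ⟨h1, j, s, h2, h3⟩
      have h4 : x = List.replicate x.length true := List.eq_replicate_iff.2 ⟨rfl, h1⟩
      rw [h4, addr] at h3
      obtain ⟨h5, rfl⟩ := replicate_cons_inj h3
      exact ⟨j, h2, by rw [← h5]; exact h4⟩
    · rintro ⟨j, h1, rfl⟩
      exact ⟨fun b hb => (List.mem_replicate.1 hb).2, j, r, h1, rfl⟩
  refine ⟨fun v => v.1.all (fun b => b) && decide (true :: (v.1 ++ false :: v.2) ∈ join K G), 2,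
    ?_, ?_, ?_⟩
  · refine PTO.and ?_ (PTO.oracle (g := fun v : Str × Str => true :: (v.1 ++ false :: v.2))
      (by fun_prop))
    exact PTO.all (p := fun _ b => b) (by fun_prop) (by fun_prop)
  · intro x
    constructor
    · rintro ⟨j, r, h1, h2⟩
      refine ⟨r, ?_, (key x r).2 ⟨j, h1, h2⟩⟩
      rw [hG j r h1, h2, List.length_replicate]
      refine Nat.pow_le_pow_left ?_ _
      have := (Nat.lt_two_pow_self (n := j))
      omega
    · rintro ⟨r, _, h⟩
      obtain ⟨j, h1, h2⟩ := (key x r).1 h
      exact ⟨j, r, h1, h2⟩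
  · intro x y y' _ _ h h'
    obtain ⟨j, h1, h2⟩ := (key x y).1 h
    obtain ⟨i, h3, h4⟩ := (key x y').1 h'
    rw [h2] at h4
    have h5 := congrArg List.length h4
    simp only [List.length_replicate] at h5
    have h6 : j = i := Nat.pow_right_injective le_rfl h5
    subst h6
    rw [h1] at h3
    exact Option.some.inj h3

/-- **The oracle world.** -/
theorem exists_world : ∃ O : Set Str, CylindricalDegreesCollapse O ∧
    ∃ L, InUP O L ∧ ¬ InP O L := by
  classical
  have : Nonempty Code := ⟨Code.orc⟩
  obtain ⟨E, hE⟩ := exists_surjective_nat Code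
  obtain ⟨K, hK⟩ := exists_answers E
  obtain ⟨G, hG, hR⟩ := exists_generic_seq (I := Code ⊕ Code)
    (fun i => Sum.elim (ReqInj K) (ReqSep K) i) (by
      rintro (c | c) g hg d
      · exact dense_reqInj K c g hg d
      · exact dense_reqSep K c g hg d)
  refine ⟨join K G, collapse_of_thinning ?_, secretLang G, secretLang_inUP hG,
    secretLang_notInP (fun c => hR (Sum.inr c))⟩
  intro q hq qi
  obtain ⟨F, hF, hF'⟩ := fpo_pair_of_pto hq
  obtain ⟨c, hc⟩ := exists_code hF
  obtain ⟨e, rfl⟩ := hE c
  have hval : ∀ x y, (E e).eval (join K G) (pr x y) = q (x, y) := fun x y => by rw [hc, hF']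
  rcases hR (Sum.inl (E e)) with ⟨d, hd⟩ | h
  · obtain ⟨ψ, h1, h2⟩ := thin_spec hK hG hd
    refine ⟨ψ, h1, fun x y => ?_⟩
    obtain ⟨u, hu⟩ := h2 (x, y)
    rw [hval] at hu
    rw [hu]
    exact Relation.ReflTransGen.single ⟨u, rfl⟩
  · exfalso
    apply h
    intro v v' hv
    beta_reduce at hv
    rw [hval, hval] at hv
    exact qi hv

end Pool.Agent.Helper86.Cyl
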