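import Pool.Agent.Helper86.Cyl.BH
import Pool.Agent.Helper86.Rel.Code
import Mathlib.Topology.Baire.Lemmas
import Mathlib.Topology.Baire.LocallyCompactRegular

/-!
Collapse of all cylindrical 1-degrees implies thinning (a category argument).
-/

namespace Pool.Agent.Helper86.Cyl

open Pool.Agent.PolyTime Pool.Agent.Helper86.Rel

/-- A generic set of roots. -/
theorem exists_generic {R S Y : Type} (Gen : R → S → Prop)
    (disj : ∀ r r' z, Gen r z → Gen r' z → r = r') (ψ : ℕ → R → Y → S) :
    ∃ C : R → Bool, ∀ n, (∀ r y, (∃ r', C r' = true ∧ Gen r' (ψ n r y)) ↔ C r = true) →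
      {r | ∃ y, ¬ Gen r (ψ n r y)}.Finite := by
  classical
  let X := R → Bool
  let P : ℕ → R → Y → X → Prop := fun n r y C =>
    ¬ ((∃ r', C r' = true ∧ Gen r' (ψ n r y)) ↔ C r = true)
  let U : ℕ → Set X := fun n => if {r | ∃ y, ¬ Gen r (ψ n r y)}.Finite then Set.univ
    else {C | ∃ r y, P n r y C}
  have hUo : ∀ n, IsOpen (U n) := by
    intro n
    simp only [U]
    split_ifs with h
    · exact isOpen_univ
    · have : {C : X | ∃ r y, P n r y C} = ⋃ r, ⋃ y, {C : X | P n r y C} := by
        ext C; simp
      rw [this]
      refine isOpen_iUnion fun r => isOpen_iUnion fun y => ?_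
      by_cases hz : ∃ r', Gen r' (ψ n r y)
      · obtain ⟨r', hr'⟩ := hz
        have h1 : {C : X | P n r y C} = (fun C : X => (C r', C r)) ⁻¹'
            {v : Bool × Bool | ¬ (v.1 = true ↔ v.2 = true)} := by
          ext C
          simp only [P, Set.mem_ofPred_eq, Set.mem_preimage]
          have : (∃ r'', C r'' = true ∧ Gen r'' (ψ n r y)) ↔ C r' = true := by
            constructor
            · rintro ⟨r'', h1, h2⟩
              rwa [disj _ _ _ hr' h2]
            · intro h; exact ⟨r', h, hr'⟩
          rw [this]
        rw [h1]
        exact (isOpen_discrete _).preimage (by fun_prop)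
      · have h1 : {C : X | P n r y C} = (fun C : X => C r) ⁻¹' {v : Bool | v = true} := by
          ext C
          simp only [P, Set.mem_ofPred_eq, Set.mem_preimage]
          have : ¬ (∃ r'', C r'' = true ∧ Gen r'' (ψ n r y)) := by
            rintro ⟨r'', _, h2⟩
            exact hz ⟨r'', h2⟩
          simp [this]
        rw [h1]
        exact (isOpen_discrete _).preimage (by fun_prop)
  have hUd : ∀ n, Dense (U n) := by
    intro n
    simp only [U]
    split_ifs with h
    · exact dense_univ
    · rw [dense_iff_inter_open]
      rintro V hV ⟨C, hC⟩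
      rw [isOpen_pi_iff] at hV
      obtain ⟨I, u, hu, hIu⟩ := hV C hC
      obtain ⟨r, hr, hrI⟩ : ∃ r ∈ {r | ∃ y, ¬ Gen r (ψ n r y)}, r ∉ I := by
        by_contra hcon
        push Not at hcon
        exact h (I.finite_toSet.subset hcon)
      obtain ⟨y, hy⟩ := hr
      by_cases hz : ∃ r', Gen r' (ψ n r y)
      · obtain ⟨r', hr'⟩ := hz
        have hne : r' ≠ r := by rintro rfl; exact hy hr'
        refine ⟨Function.update C r (!(C r')), ?_, r, y, ?_⟩
        · apply hIu
          intro i hi
          rw [Function.update_of_ne (by rintro rfl; exact hrI hi)]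
          exact (hu i hi).2
        · simp only [P]
          have : (∃ r'', Function.update C r (!(C r')) r'' = true ∧ Gen r'' (ψ n r y)) ↔
              C r' = true := by
            constructor
            · rintro ⟨r'', h1, h2⟩
              have := disj _ _ _ hr' h2
              subst this
              rwa [Function.update_of_ne hne] at h1
            · intro h; exact ⟨r', by rwa [Function.update_of_ne hne], hr'⟩
          rw [this, Function.update_self]
          cases C r' <;> simp
      · refine ⟨Function.update C r true, ?_, r, y, ?_⟩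
        · apply hIu
          intro i hi
          rw [Function.update_of_ne (by rintro rfl; exact hrI hi)]
          exact (hu i hi).2
        · simp only [P]
          have : ¬ (∃ r'', Function.update C r true r'' = true ∧ Gen r'' (ψ n r y)) := by
            rintro ⟨r'', _, h2⟩
            exact hz ⟨r'', h2⟩
          simp [this]
  obtain ⟨C, hC⟩ := (dense_iInter_of_isOpen_nat hUo hUd).nonempty
  rw [Set.mem_iInter] at hC
  refine ⟨C, fun n hn => ?_⟩
  by_contra hfin
  have := hC n
  simp only [U, if_neg hfin] at this
  obtain ⟨r, y, hP⟩ := this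
  exact hP (hn r y)

/-- The descendants of the virtual root `(x, i)`. -/
inductive Gen (q : Str × Str → Str) : Str × Str → Str → Prop
  | base (x i y : Str) : Gen q (x, i) (q (x, false :: pr i y))
  | step {r : Str × Str} {z : Str} (y : Str) (h : Gen q r z) : Gen q r (q (z, true :: y))

theorem Gen.trans {q : Str × Str → Str} {r : Str × Str} {z : Str} (h : Gen q r z) :
    Relation.ReflTransGen (fun z w => ∃ u, w = q (z, u)) r.1 z := by
  induction h with
  | base x i y => exact Relation.ReflTransGen.single ⟨_, rfl⟩
  | step y _ ih => exact ih.tail ⟨_, rfl⟩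

theorem Gen.disj {q : Str × Str → Str} (hq : Function.Injective q) (r r' : Str × Str) (z : Str)
    (h : Gen q r z) (h' : Gen q r' z) : r = r' := by
  induction h with
  | base x i y =>
    generalize hz : q (x, false :: pr i y) = z at h'
    cases h' with
    | base x' i' y' =>
      have := hq hz
      simp only [Prod.mk.injEq, List.cons.injEq, true_and] at this
      obtain ⟨h1, h2⟩ := this
      rw [h1, (pr_inj.1 h2).1]
    | step y' _ =>
      have := hq hz
      simp at this
  | @step r z y _ ih =>
    generalize hz : q (z, true :: y) = w at h'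
    cases h' with
    | base x' i' y' =>
      have := hq hz
      simp at this
    | @step _ z' y' h' =>
      have := hq hz
      simp only [Prod.mk.injEq, List.cons.injEq, true_and] at this
      obtain ⟨h1, h2⟩ := this
      subst h1
      exact ih h'

theorem gen_base_iff {q : Str × Str → Str} (hq : Function.Injective q) {r : Str × Str}
    {x i y : Str} : Gen q r (q (x, false :: pr i y)) ↔ r = (x, i) :=
  ⟨fun h => Gen.disj hq _ _ _ h (Gen.base x i y), fun h => h ▸ Gen.base x i y⟩

theorem gen_step_iff {q : Str × Str → Str} (hq : Function.Injective q) {r : Str × Str}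
    {z y : Str} : Gen q r (q (z, true :: y)) ↔ Gen q r z := by
  constructor
  · intro h
    generalize hz : q (z, true :: y) = w at h
    cases h with
    | base x' i' y' =>
      have := hq hz
      simp at this
    | @step _ z' y' h' =>
      have := hq hz
      simp only [Prod.mk.injEq, List.cons.injEq, true_and] at this
      obtain ⟨h1, h2⟩ := this
      subst h1
      exact h'
  · exact Gen.step y

variable {O : Set Str}

/-- The cylindrification of a set. -/
theorem cylinder_p1 (M : Set Str) : Cylinder O {s | p1 s ∈ M} := by
  refine ⟨fun v => pr (p1 v.1) (pr v.1 v.2), ⟨by fun_prop,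
    fun w => (p1 (p2 w), p2 (p2 w)), by fun_prop, fun v => ?_⟩, fun x y => ?_⟩
  · simp
  · simp

theorem thinning_of_collapse (h : CylindricalDegreesCollapse O) : Thinning O := by
  classical
  intro q hq qi
  -- enumerate the candidates
  have : Nonempty Code := ⟨Code.orc⟩
  obtain ⟨E, hE⟩ : ∃ E : ℕ → Code, Function.Surjective E := exists_surjective_nat Code
  obtain ⟨C, hC⟩ := exists_generic (Gen q) (Gen.disj qi)
    (fun n r y => (E n).eval O (pr (false :: pr r.1 r.2) y))
  set B : Set Str := {z | ∃ r, C r = true ∧ Gen q r z} with hB
  set M : Set Str := {t | if t.head? = some false then C (p1 t.tail, p2 t.tail) = true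
    else t.tail ∈ B} with hM
  set A : Set Str := {s | p1 s ∈ M} with hA
  have hcyl : Cylinder O A := cylinder_p1 M
  have hAB : OneRed O A B := by
    refine ⟨fun s => if (p1 s).head? = some false then
        q (p1 (p1 s).tail, false :: pr (p2 (p1 s).tail) s)
      else q ((p1 s).tail, true :: s), ?_, ?_, ?_⟩
    · have h1 : PTO O (fun s : Str => q (p1 (p1 s).tail, false :: pr (p2 (p1 s).tail) s)) :=
        hq.comp (f := fun s : Str => (p1 (p1 s).tail, false :: pr (p2 (p1 s).tail) s))
          (by fun_prop)
      have h2 : PTO O (fun s : Str => q ((p1 s).tail, true :: s)) :=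
        hq.comp (f := fun s : Str => ((p1 s).tail, true :: s)) (by fun_prop)
      fun_prop
    · intro s s' hs
      beta_reduce at hs
      split_ifs at hs with h1 h2 h2
      · have := qi hs
        simp only [Prod.mk.injEq, List.cons.injEq, true_and] at this
        exact (pr_inj.1 this.2).2
      · have := qi hs
        simp at this
      · have := qi hs
        simp at this
      · have := qi hs
        simp only [Prod.mk.injEq, List.cons.injEq, true_and] at this
        exact this.2
    · intro s
      show p1 s ∈ M ↔ _
      rw [hM, Set.mem_ofPred_eq]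
      beta_reduce
      split_ifs with h1
      · rw [hB, Set.mem_ofPred_eq]
        constructor
        · intro h2
          exact ⟨_, h2, Gen.base _ _ _⟩
        · rintro ⟨r, h2, h3⟩
          rw [gen_base_iff qi] at h3
          rwa [h3] at h2
      · rw [hB, Set.mem_ofPred_eq, Set.mem_ofPred_eq]
        constructor
        · rintro ⟨r, h2, h3⟩
          exact ⟨r, h2, Gen.step _ h3⟩
        · rintro ⟨r, h2, h3⟩
          exact ⟨r, h2, (gen_step_iff qi).1 h3⟩
  have hBA : OneRed O B A := by
    refine ⟨fun z => pr (true :: z) [], by fun_prop, ?_, ?_⟩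
    · intro z z' hz
      have := (pr_inj.1 hz).1
      simpa using this
    · intro z
      show _ ↔ p1 (pr (true :: z) []) ∈ M
      rw [p1_pr, hM, Set.mem_ofPred_eq, hB]
      simp
  have hAA : OneRed O A A := ⟨fun x => x, by fun_prop, fun _ _ h => h, fun _ => Iff.rfl⟩
  obtain ⟨e, he, he', hm⟩ := h A hcyl A B ⟨hAA, hAA⟩ ⟨hAB, hBA⟩
  obtain ⟨c, hc⟩ := exists_code (pto_string_iff.1 he)
  obtain ⟨n, rfl⟩ := hE c
  have hfin := hC n (fun r y => by
    rw [hc]
    have h1 := hm (pr (false :: pr r.1 r.2) y)
    have h2 : pr (false :: pr r.1 r.2) y ∈ A ↔ C r = true := by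
      show p1 (pr (false :: pr r.1 r.2) y) ∈ M ↔ _
      rw [p1_pr, hM, Set.mem_ofPred_eq]
      simp
    rw [← h2, h1]
    rfl)
  -- choose an index that avoids the exceptional roots
  obtain ⟨i, hi⟩ : ∃ i : Str, i ∉ Prod.snd '' {r | ∃ y, ¬ Gen q r ((E n).eval O
      (pr (false :: pr r.1 r.2) y))} := by
    have := (hfin.image Prod.snd).infinite_compl
    exact this.nonempty
  refine ⟨fun v => e (pr (false :: pr v.1 i) v.2), ⟨?_, fun w => (p1 (p1 (e.symm w)).tail,
    p2 (e.symm w)), ?_, ?_⟩, ?_⟩
  · exact he.comp (f := fun v : Str × Str => pr (false :: pr v.1 i) v.2) (by fun_prop)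
  · fun_prop
  · intro v
    simp
  · intro x y
    have h1 : Gen q (x, i) ((E n).eval O (pr (false :: pr x i) y)) := by
      by_contra hcon
      exact hi ⟨(x, i), ⟨y, hcon⟩, rfl⟩
    rw [hc] at h1
    exact h1.trans

/-- **Characterisation.** Relative to every oracle, all cylindrical 1-degrees collapse if and only
if every one-one polynomial-time function of two variables can be thinned to a p-invertible one. -/
theorem collapse_iff_thinning : CylindricalDegreesCollapse O ↔ Thinning O :=
  ⟨thinning_of_collapse, collapse_of_thinning⟩

end Pool.Agent.Helper86.Cyl
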