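import Pool.Agent.Helper86.Cyl.Osets

/-!
A self-referential set `K` that answers arbitrary questions about its own shorter part.
-/

namespace Pool.Agent.Helper86.Cyl

open Pool.Agent.PolyTime Pool.Agent.Helper86.Rel

/-- bits of an answer; `true` asks whether the position exists, `false` asks for the bit -/
def ansBit (s : Str) (j : ℕ) : Bool → Bool
  | true => decide (j < s.length)
  | false => s.getD j false

/-- query string: question `v`, bit index, kind of bit, padding `u` -/
def kq (v : Str) (j : ℕ) (b : Bool) (u : Str) : Str := enc (((v, j), b), u)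

theorem kq_inj {v v' : Str} {j j' : ℕ} {b b' : Bool} {u u' : Str}
    (h : kq v j b u = kq v' j' b' u') : v = v' ∧ j = j' ∧ b = b' ∧ u = u' := by
  have := enc_inj.1 h
  simp only [Prod.mk.injEq] at this
  tauto

theorem length_lt_kq (v : Str) (j : ℕ) (b : Bool) (u : Str) : u.length < (kq v j b u).length := by
  have h : (kq v j b u).length = size (((v, j), b), u) := rfl
  rw [h, size_pair, size_str]
  omega

/-- one level of the recursion -/
def kstep (Ψ : Set Str → Str → Str) (n : ℕ) (X : Set Str) : Set Str :=
  X ∪ {w | w.length = n ∧ ∃ v j b u, w = kq v j b u ∧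
    ansBit (Ψ {x | x ∈ X ∧ x.length < u.length} v) j b = true}

/-- the part of length less than `n` -/
def kmem (Ψ : Set Str → Str → Str) : ℕ → Set Str
  | 0 => ∅
  | n + 1 => kstep Ψ n (kmem Ψ n)

theorem length_of_kmem {Ψ : Set Str → Str → Str} {n : ℕ} {w : Str} (h : w ∈ kmem Ψ n) :
    w.length < n := by
  induction n with
  | zero => exact absurd h (Set.notMem_empty _)
  | succ n ih =>
    rcases h with h | h
    · have := ih h; omega
    · have := h.1; omega

theorem kmem_mono {Ψ : Set Str → Str → Str} {m n : ℕ} (h : m ≤ n) : kmem Ψ m ⊆ kmem Ψ n := by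
  induction h with
  | refl => exact subset_rfl
  | step _ ih => exact ih.trans Set.subset_union_left

theorem kmem_of_length {Ψ : Set Str → Str → Str} {m n : ℕ} (h : m ≤ n) {w : Str}
    (hw : w ∈ kmem Ψ n) (hl : w.length < m) : w ∈ kmem Ψ m := by
  induction h with
  | refl => exact hw
  | @step k h ih =>
    rcases hw with hw | hw
    · exact ih hw
    · have h1 := hw.1
      have h2 : m ≤ k := h
      omega

theorem exists_K (Ψ : Set Str → Str → Str) : ∃ K : Set Str, ∀ v j b u,
    kq v j b u ∈ K ↔ ansBit (Ψ {w | w ∈ K ∧ w.length < u.length} v) j b = true := by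
  refine ⟨{w | w ∈ kmem Ψ (w.length + 1)}, fun v j b u => ?_⟩
  have hK : ∀ n w, w ∈ kmem Ψ n ↔ w ∈ {w | w ∈ kmem Ψ (w.length + 1)} ∧ w.length < n := by
    intro n w
    constructor
    · intro h
      have h1 := length_of_kmem h
      exact ⟨kmem_of_length h1 h (by omega), h1⟩
    · rintro ⟨h1, h2⟩
      exact kmem_mono h2 h1
  have hu := length_lt_kq v j b u
  have e : ∀ u' : Str, u'.length < (kq v j b u).length →
      {x | x ∈ kmem Ψ (kq v j b u).length ∧ x.length < u'.length} =
      {w | w ∈ {w | w ∈ kmem Ψ (w.length + 1)} ∧ w.length < u'.length} := by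
    intro u' hu'
    ext x
    simp only [Set.mem_ofPred_eq]
    constructor
    · rintro ⟨h1, h2⟩
      exact ⟨((hK _ _).1 h1).1, h2⟩
    · rintro ⟨h1, h2⟩
      exact ⟨(hK _ _).2 ⟨h1, by omega⟩, h2⟩
  show kq v j b u ∈ kstep Ψ (kq v j b u).length (kmem Ψ (kq v j b u).length) ↔ _
  rw [← e u hu]
  constructor
  · rintro (h | ⟨_, v', j', b', u', h, h'⟩)
    · exact absurd (length_of_kmem h) (lt_irrefl _)
    · obtain ⟨rfl, rfl, rfl, rfl⟩ := kq_inj h
      exact h'
  · intro h
    exact Or.inr ⟨rfl, v, j, b, u, rfl, h⟩

theorem filterMap_range_eq (s : Str) (L : ℕ) (hL : s.length ≤ L) :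
    (List.range L).filterMap (fun j => if j < s.length then some (s.getD j false) else none) =
      s := by
  obtain ⟨k, rfl⟩ := Nat.exists_eq_add_of_le hL
  induction k with
  | zero =>
    rw [Nat.add_zero]
    have : (List.range s.length).filterMap
        (fun j => if j < s.length then some (s.getD j false) else none) =
        (List.range s.length).map (fun j => s.getD j false) := by
      rw [← List.filterMap_eq_map]
      apply List.filterMap_congr
      intro j hj
      rw [List.mem_range] at hj
      simp [hj]
    rw [this]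
    apply List.ext_getElem
    · simp
    · intro i h1 h2
      simp [List.getD_eq_getElem?_getD, h2]
  | succ k ih =>
    rw [← Nat.add_assoc, List.range_succ, List.filterMap_append, ih (by omega)]
    simp

variable {α β : Type} [PEnc α] [PEnc β]

/-- Everything that `K` knows can be computed. -/
theorem pto_K {Ψ : Set Str → Str → Str} {K : Set Str} {G : ℕ → Option Str}
    (hK : ∀ v j b u, kq v j b u ∈ K ↔
      ansBit (Ψ {w | w ∈ K ∧ w.length < u.length} v) j b = true)
    {V : α → Str} (hV : PTO (join K G) V) {h : α → β} {b : α → ℕ} (hb : PBd b)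
    (h1 : ∀ a B, b a ≤ B → Ψ {w | w ∈ K ∧ w.length < B} (V a) = enc (h a))
    (h2 : ∀ a, size (h a) ≤ b a) : PTO (join K G) h := by
  classical
  obtain ⟨k, hk⟩ := hb
  let U : α → Str := fun a => pad k (enc a)
  have hU : PTO (join K G) U := by
    show PTO (join K G) (fun a => pad k (enc a))
    fun_prop
  have hlU : ∀ a, (U a).length = (size a + 2) ^ k := fun a => length_pad _ _
  have h3 : PTO (join K G) (fun a => (List.range (U a).length).filterMap (fun j =>
      if (false :: kq (V a) j true (U a)) ∈ join K G then
        some (decide ((false :: kq (V a) j false (U a)) ∈ join K G)) else none)) := by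
    refine PTO.filterMap (p := fun a j => if (false :: kq (V a) j true (U a)) ∈ join K G then
        some (decide ((false :: kq (V a) j false (U a)) ∈ join K G)) else none)
      (PTO.range_length hU) ?_
    have hV' : PTO (join K G) (fun q : α × ℕ => V q.1) :=
      hV.comp (f := fun q : α × ℕ => q.1) (by fun_prop)
    have hU' : PTO (join K G) (fun q : α × ℕ => U q.1) :=
      hU.comp (f := fun q : α × ℕ => q.1) (by fun_prop)
    have h4 : ∀ b : Bool, PTO (join K G) (fun q : α × ℕ => kq (V q.1) q.2 b (U q.1)) := by
      intro b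
      unfold kq
      fun_prop
    have h5 : ∀ b : Bool, PTO (join K G) (fun q : α × ℕ =>
        decide (false :: kq (V q.1) q.2 b (U q.1) ∈ join K G)) := by
      intro b
      have h6 : PTO (join K G) (fun q : α × ℕ => false :: kq (V q.1) q.2 b (U q.1)) :=
        (PTO.const false).cons (h4 b)
      exact PTO.oracle h6
    exact PTO.ite (h5 true) (h5 false).some (PTO.const _)
  refine PTO.decode (FPO.id) h3 (fun a => ?_)
  have h6 : ∀ j b, (false :: kq (V a) j b (U a)) ∈ join K G ↔ ansBit (enc (h a)) j b = true := by
    intro j b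
    rw [false_mem_join, hK, h1 a _ (by rw [hlU]; exact hk a)]
  have h7 : (enc (h a)).length ≤ (U a).length := by
    rw [hlU]
    exact (h2 a).trans (hk a)
  rw [← filterMap_range_eq (enc (h a)) _ h7]
  apply List.filterMap_congr
  intro j _
  simp only [h6, ansBit, decide_eq_true_eq]
  split_ifs
  · simp
  · rfl

end Pool.Agent.Helper86.Cyl
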