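import Pool.Agent.Helper86.Cyl.Ans
import Mathlib.Analysis.SpecificLimits.Normed

/-!
Exponentials beat polynomials.
-/

namespace Pool.Agent.Helper86.Cyl

open Filter

theorem exp_beats (a k : ℕ) : ∃ M, ∀ J ≥ M, a * (J + 1) ^ k < 2 ^ J := by
  have h1 : Tendsto (fun n : ℕ => (n : ℝ) ^ k * (1 / 2 : ℝ) ^ n) atTop (nhds 0) :=
    tendsto_pow_const_mul_const_pow_of_abs_lt_one k (by norm_num [abs_lt])
  have h2 : ∀ᶠ n : ℕ in atTop, (n : ℝ) ^ k * (1 / 2 : ℝ) ^ n < 1 / (2 * (a + 1)) :=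
    h1.eventually (gt_mem_nhds (by positivity))
  obtain ⟨M, hM⟩ := eventually_atTop.1 h2
  refine ⟨M, fun J hJ => ?_⟩
  have h3 := hM (J + 1) (by omega)
  have h4 : (0 : ℝ) < 2 ^ J := by positivity
  have h5 : ((1 : ℝ) / 2) ^ (J + 1) = 1 / (2 * 2 ^ J) := by
    rw [one_div_pow, pow_succ, mul_comm]
  rw [h5] at h3
  have h6 : (a : ℝ) * (J + 1) ^ k < 2 ^ J := by
    push_cast at h3
    have h7 : ((J : ℝ) + 1) ^ k * (1 / (2 * 2 ^ J)) * (2 * 2 ^ J) <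
        1 / (2 * (a + 1)) * (2 * 2 ^ J) := mul_lt_mul_of_pos_right h3 (by positivity)
    have h8 : ((J : ℝ) + 1) ^ k * (1 / (2 * 2 ^ J)) * (2 * 2 ^ J) = (J + 1) ^ k := by
      field_simp
    have h9 : 1 / (2 * ((a : ℝ) + 1)) * (2 * 2 ^ J) = 2 ^ J / (a + 1) := by
      field_simp
    rw [h8, h9, lt_div_iff₀ (by positivity)] at h7
    have h10 : 0 ≤ ((J : ℝ) + 1) ^ k := by positivity
    nlinarith
  exact_mod_cast h6

theorem exists_level (c : Rel.Code) : ∃ C, ∀ n ≥ C,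
    2 * ((Nat.log 2 (lb c n) + 1) * (6 * Nat.log 2 (lb c n) ^ 2 + 1)) + 4 ≤ n := by
  obtain ⟨M, hM⟩ := exp_beats (305 ^ cexp c) (3 * cexp c)
  refine ⟨100 * (M + 1) ^ 3, fun n hn => ?_⟩
  set J := Nat.log 2 (lb c n) with hJ
  have h0 : 2 * ((J + 1) * (6 * J ^ 2 + 1)) + 4 ≤ 100 * (J + 1) ^ 3 := by
    have : 0 ≤ J := Nat.zero_le _
    nlinarith [sq_nonneg J, Nat.zero_le (J ^ 3), Nat.zero_le (J ^ 2)]
  refine h0.trans ?_
  rcases Nat.lt_or_ge J M with h | h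
  · refine le_trans ?_ hn
    exact Nat.mul_le_mul_left _ (Nat.pow_le_pow_left (by omega) _)
  · by_contra hcon
    rw [not_le] at hcon
    have h1 : 2 ^ J ≤ lb c n := Nat.pow_log_le_self 2 (by unfold lb; positivity)
    have h2 : lb c n ≤ 305 ^ cexp c * (J + 1) ^ (3 * cexp c) := by
      unfold lb
      rw [pow_mul, ← mul_pow]
      refine Nat.pow_le_pow_left ?_ _
      have h3 : 1 ≤ (J + 1) ^ 3 := Nat.one_le_pow _ _ (by omega)
      omega
    have h3 := hM J h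
    omega

end Pool.Agent.Helper86.Cyl
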