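import Pool.Agent.Helper86.Cyl.Tfae

/-!
The shape of the oracle: a powerful part `K` and sparse secrets `G`.
-/

namespace Pool.Agent.Helper86.Cyl

open Pool.Agent.PolyTime Pool.Agent.Helper86.Rel

/-- the place where the secret `r` with index `j` is stored -/
def addr (j : ℕ) (r : Str) : Str := List.replicate (2 ^ j) true ++ false :: r

theorem length_addr (j : ℕ) (r : Str) : (addr j r).length = 2 ^ j + 1 + r.length := by
  simp [addr]; omega

theorem replicate_cons_inj {a b : ℕ} {r s : Str}
    (h : List.replicate a true ++ false :: r = List.replicate b true ++ false :: s) :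
    a = b ∧ r = s := by
  induction a generalizing b with
  | zero =>
    cases b with
    | zero => simpa using h
    | succ b => simp [List.replicate_succ] at h
  | succ a ih =>
    cases b with
    | zero => simp [List.replicate_succ] at h
    | succ b =>
      simp only [List.replicate_succ, List.cons_append, List.cons.injEq, true_and] at h
      obtain ⟨h1, h2⟩ := ih h
      exact ⟨by rw [h1], h2⟩

theorem addr_inj {i j : ℕ} {r s : Str} (h : addr i r = addr j s) : i = j ∧ r = s := by
  obtain ⟨h1, h2⟩ := replicate_cons_inj h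
  exact ⟨Nat.pow_right_injective le_rfl h1, h2⟩

/-- a family of secrets: at index `j` at most one string, of length `j ^ 2` -/
def Valid (G : ℕ → Option Str) : Prop := ∀ j r, G j = some r → r.length = j ^ 2

/-- the oracle with parts `K` and `G` -/
def join (K : Set Str) (G : ℕ → Option Str) : Set Str :=
  {u | (∃ v ∈ K, u = false :: v) ∨ ∃ j r, G j = some r ∧ u = true :: addr j r}

theorem nil_notMem_join (K : Set Str) (G : ℕ → Option Str) : [] ∉ join K G := by
  rintro (⟨v, _, h⟩ | ⟨j, r, _, h⟩) <;> simp at h

theorem false_mem_join (K : Set Str) (G : ℕ → Option Str) (v : Str) :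
    false :: v ∈ join K G ↔ v ∈ K := by
  constructor
  · rintro (⟨w, hw, h⟩ | ⟨j, r, _, h⟩)
    · simp only [List.cons.injEq, true_and] at h
      rwa [h]
    · simp at h
  · intro h
    exact Or.inl ⟨v, h, rfl⟩

theorem true_mem_join (K : Set Str) (G : ℕ → Option Str) (v : Str) :
    true :: v ∈ join K G ↔ ∃ j r, G j = some r ∧ v = addr j r := by
  constructor
  · rintro (⟨w, hw, h⟩ | ⟨j, r, h, h'⟩)
    · simp at h
    · simp only [List.cons.injEq, true_and] at h'
      exact ⟨j, r, h, h'⟩
  · rintro ⟨j, r, h, h'⟩
    exact Or.inr ⟨j, r, h, by rw [h']⟩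

theorem addr_mem_join {K : Set Str} {G : ℕ → Option Str} {j : ℕ} {r : Str} :
    true :: addr j r ∈ join K G ↔ G j = some r := by
  rw [true_mem_join]
  constructor
  · rintro ⟨i, s, h, h'⟩
    obtain ⟨rfl, rfl⟩ := addr_inj h'
    exact h
  · intro h
    exact ⟨j, r, h, rfl⟩

/-- Oracles whose secrets agree below `d` agree on strings of length less than `2 ^ d`. -/
theorem join_agree {K : Set Str} {G G' : ℕ → Option Str} {d b : ℕ} (hb : b < 2 ^ d)
    (h : ∀ j < d, G' j = G j) (q : Str) (hq : q.length ≤ b) :
    q ∈ join K G' ↔ q ∈ join K G := by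
  have key : ∀ {G G' : ℕ → Option Str}, (∀ j < d, G' j = G j) → ∀ (q : Str), q.length ≤ b →
      q ∈ join K G' → q ∈ join K G := by
    rintro G G' h q hq (⟨v, hv, h'⟩ | ⟨j, r, hj, h'⟩)
    · exact Or.inl ⟨v, hv, h'⟩
    · refine Or.inr ⟨j, r, ?_, h'⟩
      have h1 : 2 ^ j < 2 ^ d := by
        have := length_addr j r
        rw [h', List.length_cons] at hq
        omega
      have h2 : j < d := (Nat.pow_lt_pow_iff_right (by norm_num)).1 h1
      rw [← h j h2, hj]
  exact ⟨key h q hq, key (fun j hj => (h j hj).symm) q hq⟩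

/-- exponent of a polynomial bound for resources of a code -/
theorem exists_exp (c : Code) : ∃ k : ℕ, ∀ (O : Set Str) (x : Str),
    (c.eval O x).length ≤ (x.length + 2) ^ k ∧
    ∃ Q : Finset Str, UseSet O (fun O' => c.eval O' x) ((x.length + 2) ^ k) Q := by
  obtain ⟨b, ⟨k, hk⟩, hb⟩ := code_use c
  refine ⟨k, fun O x => ?_⟩
  obtain ⟨h1, Q, h2, h3, h4⟩ := hb O x
  exact ⟨h1.trans (hk _), Q, h2.trans (hk _), fun q hq => (h3 q hq).trans (hk _), h4⟩

/-- exponent of a polynomial bound for resources of a code -/
noncomputable def cexp (c : Code) : ℕ := (exists_exp c).choose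

theorem length_eval (c : Code) (O : Set Str) (x : Str) :
    (c.eval O x).length ≤ (x.length + 2) ^ cexp c := ((exists_exp c).choose_spec O x).1

/-- the set of oracle queries -/
noncomputable def uses (c : Code) (O : Set Str) (x : Str) : Finset Str :=
  ((exists_exp c).choose_spec O x).2.choose

theorem uses_spec (c : Code) (O : Set Str) (x : Str) :
    UseSet O (fun O' => c.eval O' x) ((x.length + 2) ^ cexp c) (uses c O x) :=
  ((exists_exp c).choose_spec O x).2.choose_spec

/-- Values only depend on short queries. -/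
theorem eval_congr_short (c : Code) {O O' : Set Str} {x : Str}
    (h : ∀ q : Str, q.length ≤ (x.length + 2) ^ cexp c → (q ∈ O' ↔ q ∈ O)) :
    c.eval O' x = c.eval O x :=
  (uses_spec c O x).2.2 O' (fun q hq => h q ((uses_spec c O x).2.1 q hq))

theorem eval_congr_agree (c : Code) {K : Set Str} {G G' : ℕ → Option Str} {d : ℕ} {x : Str}
    (hd : (x.length + 2) ^ cexp c < 2 ^ d) (h : ∀ j < d, G' j = G j) :
    c.eval (join K G') x = c.eval (join K G) x :=
  eval_congr_short c (fun q hq => join_agree hd h q hq)

end Pool.Agent.Helper86.Cyl
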