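import Pool.Agent.Helper86.Cyl.Generic

/-!
Equivalent forms of the collapse of all cylindrical 1-degrees, relative to an oracle.
-/

namespace Pool.Agent.Helper86.Cyl

open Pool.Agent.PolyTime Pool.Agent.Helper86.Rel

/-- `B` has a one-one padding function. -/
def OneOnePadding (O B : Set Str) : Prop :=
  ∃ q : Str × Str → Str, PTO O q ∧ Function.Injective q ∧ ∀ x y, q (x, y) ∈ B ↔ x ∈ B

/-- Weak form of thinning: the values stay in the connected component. -/
def WeakThinning (O : Set Str) : Prop :=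
  ∀ q : Str × Str → Str, PTO O q → Function.Injective q →
    ∃ ψ : Str × Str → Str, PInvertible O ψ ∧
      ∀ x y, Relation.EqvGen (fun z w => ∃ u, w = q (z, u)) x (ψ (x, y))

variable {O : Set Str}

theorem Cylinder.of_pIso {A B : Set Str} (hA : Cylinder O A) (h : PIso O B A) : Cylinder O B := by
  obtain ⟨e, he, he', hm⟩ := h
  obtain ⟨p, ⟨hp, g, hg, hg'⟩, hp'⟩ := hA
  refine ⟨fun v => e.symm (p (e v.1, v.2)), ⟨?_, fun w => (e.symm (g (e w)).1, (g (e w)).2), ?_,
    fun v => ?_⟩, fun x y => ?_⟩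
  · have h1 : PTO O (fun v : Str × Str => e v.1) :=
      he.comp (f := fun v : Str × Str => v.1) (by fun_prop)
    exact he'.comp (hp.comp (h1.prodMk (by fun_prop)))
  · have h1 : PTO O (fun w => g (e w)) := hg.comp he
    exact (he'.comp h1.fst).prodMk h1.snd
  · simp [hg']
  · rw [hm, hm]
    simp [hp']

theorem Cylinder.oneOnePadding {A B : Set Str} (hA : Cylinder O A) (h : OneEquiv O A B) :
    OneOnePadding O B := by
  obtain ⟨⟨e, he, ei, he'⟩, ⟨f, hf, _, hf'⟩⟩ := h
  obtain ⟨p, ⟨hp, g, hg, hg'⟩, hp'⟩ := hA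
  refine ⟨fun v => e (p (f v.1, pr v.1 v.2)), ?_, ?_, ?_⟩
  · have h1 : PTO O (fun v : Str × Str => f v.1) :=
      hf.comp (f := fun v : Str × Str => v.1) (by fun_prop)
    exact he.comp (hp.comp (h1.prodMk (by fun_prop)))
  · rintro ⟨x, y⟩ ⟨x', y'⟩ hv
    have h1 := congrArg g (ei hv)
    simp only [hg', Prod.mk.injEq] at h1
    obtain ⟨h2, h3⟩ := pr_inj.1 h1.2
    rw [h2, h3]
  · intro x y
    simp only
    rw [← he', hp', ← hf']

/-- A set with a one-one padding function is 1-equivalent to its cylindrification. -/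
theorem OneOnePadding.equiv {B : Set Str} (h : OneOnePadding O B) :
    OneEquiv O {s | p1 s ∈ B} B := by
  obtain ⟨q, hq, qi, hq'⟩ := h
  refine ⟨⟨fun s => q (p1 s, s), hq.comp (by fun_prop), ?_, fun s => (hq' _ _).symm⟩,
    ⟨fun z => pr z [], by fun_prop, ?_, fun z => ?_⟩⟩
  · intro s s' hs
    have := qi hs
    simp only [Prod.mk.injEq] at this
    exact this.2
  · intro z z' hz
    exact (pr_inj.1 hz).1
  · show _ ↔ p1 (pr z []) ∈ B
    rw [p1_pr]

theorem OneRed.refl (A : Set Str) : OneRed O A A :=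
  ⟨fun x => x, by fun_prop, fun _ _ h => h, fun _ => Iff.rfl⟩

/-- A degree is cylindrical exactly when its members have one-one padding functions. -/
theorem oneOnePadding_iff {B : Set Str} :
    OneOnePadding O B ↔ ∃ A, Cylinder O A ∧ OneEquiv O A B :=
  ⟨fun h => ⟨_, cylinder_p1 B, h.equiv⟩, fun ⟨_, hA, h⟩ => hA.oneOnePadding h⟩

theorem tfae (O : Set Str) : List.TFAE [
    CylindricalDegreesCollapse O,
    ∀ B, OneOnePadding O B → Cylinder O B,
    Thinning O,
    WeakThinning O] := by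
  tfae_have 1 → 2 := by
    intro h B hB
    exact (cylinder_p1 B).of_pIso
      ((h _ (cylinder_p1 B) _ B ⟨OneRed.refl _, OneRed.refl _⟩ hB.equiv).symm)
  tfae_have 2 → 1 := by
    intro h A hA B C hB hC
    have h1 := h B (hA.oneOnePadding hB)
    have h2 := h C (hA.oneOnePadding hC)
    exact pIso_of_cylinders h1 h2 (hB.2.mRed.trans hC.1.mRed) (hC.2.mRed.trans hB.1.mRed)
  tfae_have 1 → 3 := thinning_of_collapse
  tfae_have 3 → 4 := by
    intro h q hq qi
    obtain ⟨ψ, h1, h2⟩ := h q hq qi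
    refine ⟨ψ, h1, fun x y => ?_⟩
    have h3 := h2 x y
    generalize ψ (x, y) = w at h3
    induction h3 with
    | refl => exact Relation.EqvGen.refl _
    | tail _ h ih => exact Relation.EqvGen.trans _ _ _ ih (Relation.EqvGen.rel _ _ h)
  tfae_have 4 → 2 := by
    rintro h B ⟨q, hq, qi, hq'⟩
    obtain ⟨ψ, h1, h2⟩ := h q hq qi
    refine ⟨ψ, h1, fun x y => ?_⟩
    have key : ∀ {z w : Str}, Relation.EqvGen (fun z w => ∃ u, w = q (z, u)) z w →
        (w ∈ B ↔ z ∈ B) := by
      intro z w hzw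
      induction hzw with
      | rel z w h => obtain ⟨u, rfl⟩ := h; exact hq' _ _
      | refl _ => rfl
      | symm _ _ _ ih => exact ih.symm
      | trans _ _ _ _ _ ih1 ih2 => exact ih2.trans ih1
    exact key (h2 x y)
  tfae_finish

end Pool.Agent.Helper86.Cyl
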