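import Pool.Agent.Helper86.Cyl.World

/-!
Thinning holds for every function whose injectivity is decided by finitely many secrets.
-/

namespace Pool.Agent.Helper86.Cyl

open Pool.Agent.PolyTime Pool.Agent.Helper86.Rel

section world

variable {E : ℕ → Code} {K : Set Str} {G : ℕ → Option Str} {e d C : ℕ}

theorem pto_Nf {O : Set Str} : PTO O (fun v => Nf C v) := by
  unfold Nf
  have : PTO O (fun v : Str × Str => size v) := PTO.natSizeOf PTO.id
  fun_prop

theorem pbd_Nf : PBd (fun v => Nf C v) :=
  ((PBd.const 4).mul PBd.size).add (PBd.const C)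

theorem pto_upd (hK : Answers E K) :
    PTO (join K G) (fun a : (Str × Str) × List Str => upd E K G e d C a.1 a.2) := by
  classical
  have h1 : PTO (join K G) (fun a : (Str × Str) × List Str =>
      ansT (E e) K (Pd G d) (Nf C a.1) (a.1.1, a.1.2, a.2)) := by
    refine pto_ansT hK e _ (N := fun a : (Str × Str) × List Str => Nf C a.1)
      (T := fun a => (a.1.1, a.1.2, a.2)) ?_ ?_ ?_
    · exact pto_Nf.comp (f := fun a : (Str × Str) × List Str => a.1) (by fun_prop)
    · exact PBd.comp (b := fun v => Nf C v) (f := fun a : (Str × Str) × List Str => a.1)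
        pbd_Nf (by fun_prop)
    · fun_prop
  unfold upd
  have h2 : PTO (join K G) (fun a : (Str × Str) × List Str =>
      (ansT (E e) K (Pd G d) (Nf C a.1) (a.1.1, a.1.2, a.2)).1.find?
      (fun p => decide (p.2 ∈ join K G) && !decide (p.1 ∈ a.2))) := by
    refine PTO.find? (p := fun a p => decide (p.2 ∈ join K G) && !decide (p.1 ∈ a.2)) h1.fst ?_
    refine PTO.and ?_ (PTO.not ?_)
    · exact PTO.oracle (g := fun q : ((Str × Str) × List Str) × (Str × Str) => q.2.2)
        (by fun_prop)
    · exact (PTO.decide_mem (f := fun q : ((Str × Str) × List Str) × (Str × Str) => q.2.1)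
        (l := fun q => q.1.2) (by fun_prop) (by fun_prop)).congr (fun q => by
          by_cases h : q.2.1 ∈ q.1.2 <;> simp [h])
  have h3 := PTO.option_map (g := fun (a : (Str × Str) × List Str) (p : Str × Str) =>
    p.1 :: a.2) h2 (by fun_prop)
  exact PTO.option_getD h3 (by fun_prop)

theorem pto_fin (hK : Answers E K) (hC : ∀ n ≥ C, 2 * ((Nat.log 2 (lb (E e) n) + 1) *
    (6 * Nat.log 2 (lb (E e) n) ^ 2 + 1)) + 4 ≤ n) (hG : Valid G) :
    PTO (join K G) (fun v => fin E K G e d C v) := by
  unfold fin
  refine PTO.iterate (f := fun v τ => upd E K G e d C v τ) (n := fun v => Nf C v)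
    (g := fun _ => []) (pto_upd hK) pto_Nf pbd_Nf (by fun_prop) (B := fun v => Nf C v)
    pbd_Nf ?_
  intro v i _
  have h1 := (inv_size hG (inv_iter (K := K) (d := d) hC hG v i)).2
  have h2 := hC (Nf C v) (by unfold Nf; omega)
  show size ((upd E K G e d C v)^[i] []) ≤ Nf C v
  omega

theorem pto_thin (hK : Answers E K) (hC : ∀ n ≥ C, 2 * ((Nat.log 2 (lb (E e) n) + 1) *
    (6 * Nat.log 2 (lb (E e) n) ^ 2 + 1)) + 4 ≤ n) (hG : Valid G) :
    PTO (join K G) (fun v => thin E K G e d C v) := by
  unfold thin
  have h1 := pto_fin (d := d) hK hC hG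
  have h2 : PTO (join K G) (fun v : Str × Str => (v.1, v.2, fin E K G e d C v)) := by
    fun_prop
  exact (pto_ansT hK e _ pto_Nf pbd_Nf h2).snd

/-- the inverse of the thinning -/
noncomputable def thinInv (E : ℕ → Code) (K : Set Str) (G : ℕ → Option Str) (e d C : ℕ)
    (w : Str) : Str × Str :=
  (((List.range (w.length + 1)).map (fun m => ansI (E e) K (Pd G d) (min m w.length) w)).find?
    (fun v => decide (thin E K G e d C v = w))).getD ([], [])

theorem pto_thinInv (hK : Answers E K) (hC : ∀ n ≥ C, 2 * ((Nat.log 2 (lb (E e) n) + 1) *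
    (6 * Nat.log 2 (lb (E e) n) ^ 2 + 1)) + 4 ≤ n) (hG : Valid G) :
    PTO (join K G) (fun w => thinInv E K G e d C w) := by
  unfold thinInv
  have h1 : PTO (join K G) (fun w : Str => List.range (w.length + 1)) := by
    have := PTO.range_length (O := join K G) (l := fun w : Str => true :: w) (by fun_prop)
    exact this.congr (fun w => by simp)
  have h2 : PTO (join K G) (fun q : Str × ℕ =>
      ansI (E e) K (Pd G d) (min q.2 q.1.length) q.1) := by
    refine pto_ansI hK e _ (N := fun q : Str × ℕ => min q.2 q.1.length)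
      (w := fun q => q.1) (by fun_prop) ?_ (by fun_prop)
    refine PBd.size.mono (fun q => ?_)
    rw [size_prod, size_str]
    omega
  have h3 : PTO (join K G) (fun w : Str => (List.range (w.length + 1)).map
      (fun m => ansI (E e) K (Pd G d) (min m w.length) w)) :=
    PTO.map (g := fun w m => ansI (E e) K (Pd G d) (min m w.length) w) h1 h2
  refine PTO.option_getD (PTO.find? (p := fun w v => decide (thin E K G e d C v = w)) h3 ?_)
    (by fun_prop)
  have h4 : PTO (join K G) (fun q : Str × (Str × Str) => thin E K G e d C q.2) :=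
    (pto_thin hK hC hG).comp (f := fun q : Str × (Str × Str) => q.2) (by fun_prop)
  fun_prop

theorem good_of_inj (hG : Valid G)
    (hinj : ∀ G', Valid G' → (∀ j < d, G' j = G j) →
      Function.Injective (fun v : Str × Str => (E e).eval (join K G') (pr v.1 v.2))) (n : ℕ) :
    ∃ f, Good (E e) (cut K (lb (E e) n)) (Pd G d) n f := by
  refine exists_good (fun τ x y y' hx hy hy' h => ?_)
  unfold vl at h
  have h1 : ∀ y : Str, y.length = n + 2 → (pr x y).length ≤ 3 * n + 3 := by
    intro y hy
    rw [length_pr]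
    omega
  rw [eval_cut _ _ _ _ (h1 y hy), eval_cut _ _ _ _ (h1 y' hy')] at h
  have h2 := hinj _ (GP_valid hG d τ) (fun j hj => GP_lt G τ hj) (a₁ := (x, y)) (a₂ := (x, y')) h
  simpa using h2

/-- **Thinning in the oracle world.** -/
theorem thin_spec (hK : Answers E K) (hG : Valid G)
    (hinj : ∀ G', Valid G' → (∀ j < d, G' j = G j) →
      Function.Injective (fun v : Str × Str => (E e).eval (join K G') (pr v.1 v.2))) :
    ∃ ψ : Str × Str → Str, PInvertible (join K G) ψ ∧
      ∀ v, ∃ u, ψ v = (E e).eval (join K G) (pr v.1 u) := by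
  obtain ⟨C, hC⟩ := exists_level (E e)
  have good : ∀ n, Good (E e) (cut K (lb (E e) n)) (Pd G d) n
      (chY (E e) (cut K (lb (E e) n)) (Pd G d) n) := fun n => chY_good (good_of_inj hG hinj n)
  have hT : ∀ v, size (v.1, v.2, fin E K G e d C v) ≤ Nf C v := fun v =>
    size_trip_le hC hG v (inv_iter (K := K) (d := d) hC hG v (Nf C v))
  have hinj' : ∀ v v', thin E K G e d C v = thin E K G e d C v' → v = v' := by
    intro v v' h
    have h1 := h
    rw [thin_eq_eval hC hG, thin_eq_eval hC hG] at h1
    have h2 := hinj G hG (fun _ _ => rfl) (a₁ := (v.1, yy E K G e d C v))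
      (a₂ := (v'.1, yy E K G e d C v')) h1
    simp only [Prod.mk.injEq] at h2
    have h3 : (yy E K G e d C v).length = Nf C v + 2 := (good _).1 _ (hT v)
    have h4 : (yy E K G e d C v').length = Nf C v' + 2 := (good _).1 _ (hT v')
    have h5 : Nf C v = Nf C v' := by
      have := congrArg List.length h2.2
      omega
    rw [thin_eq_vl hC hG, thin_eq_vl hC hG] at h
    have h6 := (good (Nf C v)).2.2 (v.1, v.2, fin E K G e d C v) (v'.1, v'.2, fin E K G e d C v')
      (hT v) (by rw [h5]; exact hT v') (by
        unfold yy at h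
        rw [h]
        rw [h5])
    simp only [Prod.mk.injEq] at h6
    exact Prod.ext h6.1 h6.2.1
  have hlen : ∀ v, Nf C v ≤ (thin E K G e d C v).length := by
    intro v
    rw [thin_eq_vl hC hG]
    exact (good _).2.1 _ (hT v)
  have hans : ∀ v, ansI (E e) K (Pd G d) (Nf C v) (thin E K G e d C v) = v := by
    intro v
    have hex : ∃ T : Trip, size T ≤ Nf C v ∧ vl (E e) (cut K (lb (E e) (Nf C v))) (Pd G d) T.2.2
        T.1 (chY (E e) (cut K (lb (E e) (Nf C v))) (Pd G d) (Nf C v) T) =
        thin E K G e d C v := ⟨_, hT v, (thin_eq_vl hC hG v).symm⟩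
    rw [ansI, dif_pos hex]
    have h1 := (good (Nf C v)).2.2 _ (v.1, v.2, fin E K G e d C v) hex.choose_spec.1 (hT v) (by
      rw [hex.choose_spec.2, thin_eq_vl hC hG]
      rfl)
    rw [h1]
  refine ⟨fun v => thin E K G e d C v, ⟨pto_thin hK hC hG, fun w => thinInv E K G e d C w,
    pto_thinInv hK hC hG, fun v => ?_⟩, fun v => ⟨_, thin_eq_eval hC hG v⟩⟩
  beta_reduce
  unfold thinInv
  have hmem : v ∈ (List.range ((thin E K G e d C v).length + 1)).map
      (fun m => ansI (E e) K (Pd G d) (min m (thin E K G e d C v).length)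
        (thin E K G e d C v)) := by
    rw [List.mem_map]
    refine ⟨Nf C v, List.mem_range.2 (by have := hlen v; omega), ?_⟩
    rw [min_eq_left (hlen v)]
    exact hans v
  have h1 : (((List.range ((thin E K G e d C v).length + 1)).map
      (fun m => ansI (E e) K (Pd G d) (min m (thin E K G e d C v).length)
        (thin E K G e d C v))).find?
      (fun v' => decide (thin E K G e d C v' = thin E K G e d C v))).isSome := by
    rw [List.find?_isSome]
    exact ⟨v, hmem, by simp⟩
  obtain ⟨v', hv'⟩ := Option.isSome_iff_exists.1 h1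
  rw [hv', Option.getD_some]
  have h2 := List.find?_some hv'
  simp only [decide_eq_true_eq] at h2
  exact hinj' _ _ h2

end world

end Pool.Agent.Helper86.Cyl
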