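import Pool.Agent.Helper86.Cyl.Numeric

/-!
The thinning of a one-one function relative to the oracle.
-/

namespace Pool.Agent.Helper86.Cyl

open Pool.Agent.PolyTime Pool.Agent.Helper86.Rel

theorem sq_inj {i j : ℕ} (h : i ^ 2 = j ^ 2) : i = j := by
  exact Nat.pow_left_injective (by norm_num : 2 ≠ 0) h

/-- the secrets of index less than `d`, as a list -/
def Pd (G : ℕ → Option Str) (d : ℕ) : List (Option Str) := (List.range d).map G

theorem GP_lt (G : ℕ → Option Str) {d j : ℕ} (τ : List Str) (h : j < d) :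
    GP (Pd G d) τ j = G j := by
  simp [GP, Pd, h]

theorem GP_ge (G : ℕ → Option Str) {d j : ℕ} (τ : List Str) (h : ¬ j < d) :
    GP (Pd G d) τ j = τ.find? (fun r => decide (r.length = j ^ 2)) := by
  simp [GP, Pd, h]

theorem GP_valid {G : ℕ → Option Str} (hG : Valid G) (d : ℕ) (τ : List Str) :
    Valid (GP (Pd G d) τ) := by
  intro j r h
  by_cases hj : j < d
  · rw [GP_lt G τ hj] at h
    exact hG j r h
  · rw [GP_ge G τ hj] at h
    have := List.find?_some h
    simpa using this

theorem eval_cut (c : Code) (K : Set Str) (n : ℕ) (G' : ℕ → Option Str) {z : Str}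
    (hz : z.length ≤ 3 * n + 3) :
    c.eval (join (cut K (lb c n)) G') z = c.eval (join K G') z := by
  apply eval_congr_short
  intro q hq
  have h1 : (z.length + 2) ^ cexp c ≤ lb c n := Nat.pow_le_pow_left (by omega) _
  rcases q with _ | ⟨b, v⟩
  · exact iff_of_false (nil_notMem_join _ _) (nil_notMem_join _ _)
  · cases b with
    | false =>
      rw [false_mem_join, false_mem_join]
      simp only [List.length_cons] at hq
      constructor
      · exact fun h => h.1
      · exact fun h => ⟨h, by omega⟩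
    | true => rw [true_mem_join, true_mem_join]

section world

variable {E : ℕ → Code} {K : Set Str} {G : ℕ → Option Str} {e d C : ℕ}

/-- level of an input -/
def Nf (C : ℕ) (v : Str × Str) : ℕ := 4 * size v + C

/-- invariant of the search for secrets -/
def Inv (E : ℕ → Code) (e : ℕ) (G : ℕ → Option Str) (n : ℕ) (τ : List Str) : Prop :=
  τ.Nodup ∧ ∀ r ∈ τ, ∃ j, G j = some r ∧ 2 ^ j ≤ lb (E e) n

theorem inv_size {n : ℕ} (hG : Valid G) {τ : List Str} (h : Inv E e G n τ) :
    τ.length ≤ Nat.log 2 (lb (E e) n) + 1 ∧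
    size τ ≤ (Nat.log 2 (lb (E e) n) + 1) * (6 * Nat.log 2 (lb (E e) n) ^ 2 + 1) := by
  classical
  obtain ⟨h1, h2⟩ := h
  set J := Nat.log 2 (lb (E e) n) with hJ
  have hj : ∀ j, 2 ^ j ≤ lb (E e) n → j ≤ J := fun j h =>
    (Nat.le_log_iff_pow_le (by norm_num) (by have := Nat.one_le_two_pow (n := j); omega)).2 h
  have hlen : τ.length ≤ J + 1 := by
    rw [← List.toFinset_card_of_nodup h1]
    have := Finset.card_le_card_of_injOn (s := τ.toFinset) (t := Finset.range (J + 1))
      (fun r => Nat.sqrt r.length) (by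
        intro r hr
        obtain ⟨j, hj1, hj2⟩ := h2 r (List.mem_toFinset.1 hr)
        simp only [Finset.coe_range, Set.mem_Iio]
        rw [hG j r hj1, Nat.sqrt_eq']
        have := hj j hj2
        omega) (by
        intro r hr s hs h
        obtain ⟨j, hj1, hj2⟩ := h2 r (List.mem_toFinset.1 hr)
        obtain ⟨i, hi1, hi2⟩ := h2 s (List.mem_toFinset.1 hs)
        simp only [hG j r hj1, hG i s hi1, Nat.sqrt_eq'] at h
        subst h
        rw [hj1] at hi1
        exact Option.some.inj hi1)
    simpa using this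
  refine ⟨hlen, ?_⟩
  have h3 : ∀ r ∈ τ, size r ≤ 3 * J ^ 2 := by
    intro r hr
    obtain ⟨j, hj1, hj2⟩ := h2 r hr
    rw [size_str, hG j r hj1]
    exact Nat.mul_le_mul_left _ (Nat.pow_le_pow_left (hj j hj2) _)
  refine (size_le_of_forall h3).trans ?_
  refine (Nat.mul_le_mul_right _ hlen).trans ?_
  exact Nat.mul_le_mul_left _ (by omega)

open Classical in
/-- one step of the search for secrets -/
noncomputable def upd (E : ℕ → Code) (K : Set Str) (G : ℕ → Option Str) (e d C : ℕ)
    (v : Str × Str) (τ : List Str) : List Str :=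
  (((ansT (E e) K (Pd G d) (Nf C v) (v.1, v.2, τ)).1.find?
    (fun p => decide (p.2 ∈ join K G) && !decide (p.1 ∈ τ))).map (fun p => p.1 :: τ)).getD τ

theorem upd_cases (v : Str × Str) (τ : List Str) :
    (upd E K G e d C v τ = τ ∧ ∀ p ∈ (ansT (E e) K (Pd G d) (Nf C v) (v.1, v.2, τ)).1,
      p.2 ∈ join K G → p.1 ∈ τ) ∨
    ∃ p ∈ (ansT (E e) K (Pd G d) (Nf C v) (v.1, v.2, τ)).1, p.2 ∈ join K G ∧ p.1 ∉ τ ∧
      upd E K G e d C v τ = p.1 :: τ := by
  classical
  unfold upd
  cases h : (ansT (E e) K (Pd G d) (Nf C v) (v.1, v.2, τ)).1.find?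
    (fun p => decide (p.2 ∈ join K G) && !decide (p.1 ∈ τ)) with
  | none =>
    left
    refine ⟨rfl, fun p hp h1 => ?_⟩
    have h2 := List.find?_eq_none.1 h p hp
    simp only [h1, decide_true, Bool.true_and, Bool.not_eq_true, Bool.not_eq_false',
      decide_eq_true_eq] at h2
    exact h2
  | some p =>
    right
    have h1 := List.find?_some h
    simp only [Bool.and_eq_true, decide_eq_true_eq, Bool.not_eq_true', decide_eq_false_iff_not]
      at h1
    exact ⟨p, List.mem_of_find?_eq_some h, h1.1, h1.2, rfl⟩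

/-- inputs of small size -/
theorem size_trip_le (hC : ∀ n ≥ C, 2 * ((Nat.log 2 (lb (E e) n) + 1) *
    (6 * Nat.log 2 (lb (E e) n) ^ 2 + 1)) + 4 ≤ n) (hG : Valid G) (v : Str × Str)
    {τ : List Str} (h : Inv E e G (Nf C v) τ) : size (v.1, v.2, τ) ≤ Nf C v := by
  have h1 := (inv_size hG h).2
  have h2 := hC (Nf C v) (by unfold Nf; omega)
  have h3 : size v = 2 * size v.1 + 1 + size v.2 := size_prod v
  rw [size_pair, size_pair]
  unfold Nf at *
  omega

theorem mem_ansT {v : Str × Str} {τ : List Str} {p : Str × Str}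
    (hT : size (v.1, v.2, τ) ≤ Nf C v)
    (hp : p ∈ (ansT (E e) K (Pd G d) (Nf C v) (v.1, v.2, τ)).1) :
    ∃ j, p.2 = true :: addr j p.1 ∧ p.1.length = j ^ 2 ∧ 2 ^ j ≤ lb (E e) (Nf C v) := by
  rw [ansT, if_pos hT, List.mem_filterMap] at hp
  obtain ⟨q, hq, hp⟩ := hp
  obtain ⟨h1, j, h2, h3⟩ := parse_eq_some hp
  refine ⟨j, by rw [h1, h2], h3, ?_⟩
  have h4 := (uses_spec _ _ _).2.1 q (Finset.mem_toList.1 hq)
  have h5 := h4.trans (resource_le (E e) (cut K (lb (E e) (Nf C v))) (Pd G d) (Nf C v) hT)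
  rw [h2, List.length_cons, length_addr] at h5
  omega

theorem upd_inv (hC : ∀ n ≥ C, 2 * ((Nat.log 2 (lb (E e) n) + 1) *
    (6 * Nat.log 2 (lb (E e) n) ^ 2 + 1)) + 4 ≤ n) (hG : Valid G) (v : Str × Str)
    {τ : List Str} (h : Inv E e G (Nf C v) τ) :
    Inv E e G (Nf C v) (upd E K G e d C v τ) := by
  rcases upd_cases (E := E) (K := K) (G := G) (e := e) (d := d) (C := C) v τ with
    ⟨h1, _⟩ | ⟨p, hp, h1, h2, h3⟩
  · rwa [h1]
  · rw [h3]
    obtain ⟨j, h4, h5, h6⟩ := mem_ansT (size_trip_le hC hG v h) hp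
    refine ⟨List.nodup_cons.2 ⟨h2, h.1⟩, fun r hr => ?_⟩
    rcases List.mem_cons.1 hr with rfl | hr
    · rw [h4, addr_mem_join] at h1
      exact ⟨j, h1, h6⟩
    · exact h.2 r hr

/-- the secrets that matter -/
noncomputable def fin (E : ℕ → Code) (K : Set Str) (G : ℕ → Option Str) (e d C : ℕ)
    (v : Str × Str) : List Str := (upd E K G e d C v)^[Nf C v] []

theorem inv_iter (hC : ∀ n ≥ C, 2 * ((Nat.log 2 (lb (E e) n) + 1) *
    (6 * Nat.log 2 (lb (E e) n) ^ 2 + 1)) + 4 ≤ n) (hG : Valid G) (v : Str × Str) (i : ℕ) :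
    Inv E e G (Nf C v) ((upd E K G e d C v)^[i] []) := by
  induction i with
  | zero => exact ⟨List.nodup_nil, by simp⟩
  | succ i ih =>
    rw [Function.iterate_succ_apply']
    exact upd_inv hC hG v ih

theorem fin_fixed (hC : ∀ n ≥ C, 2 * ((Nat.log 2 (lb (E e) n) + 1) *
    (6 * Nat.log 2 (lb (E e) n) ^ 2 + 1)) + 4 ≤ n) (hG : Valid G) (v : Str × Str) :
    ∀ p ∈ (ansT (E e) K (Pd G d) (Nf C v) (v.1, v.2, fin E K G e d C v)).1,
      p.2 ∈ join K G → p.1 ∈ fin E K G e d C v := by
  have key : ∀ i, (∀ p ∈ (ansT (E e) K (Pd G d) (Nf C v)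
      (v.1, v.2, (upd E K G e d C v)^[i] [])).1,
      p.2 ∈ join K G → p.1 ∈ (upd E K G e d C v)^[i] []) ∨
      ((upd E K G e d C v)^[i] []).length = i := by
    intro i
    induction i with
    | zero => right; rfl
    | succ i ih =>
      rw [Function.iterate_succ_apply']
      rcases upd_cases (E := E) (K := K) (G := G) (e := e) (d := d) (C := C) v
        ((upd E K G e d C v)^[i] []) with ⟨h1, h2⟩ | ⟨p, hp, h1, h2, h3⟩
      · left
        rw [h1]
        exact h2
      · rcases ih with ih | ih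
        · exact absurd (ih p hp h1) h2
        · right
          rw [h3, List.length_cons, ih]
  rcases key (Nf C v) with h | h
  · exact h
  · exfalso
    have h1 := (inv_size hG (inv_iter (K := K) (d := d) hC hG v (Nf C v))).1
    have h2 := hC (Nf C v) (by unfold Nf; omega)
    have h3 : Nat.log 2 (lb (E e) (Nf C v)) + 1 ≤ (Nat.log 2 (lb (E e) (Nf C v)) + 1) *
      (6 * Nat.log 2 (lb (E e) (Nf C v)) ^ 2 + 1) := Nat.le_mul_of_pos_right _ (by omega)
    omega

/-- the thinning -/
noncomputable def thin (E : ℕ → Code) (K : Set Str) (G : ℕ → Option Str) (e d C : ℕ)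
    (v : Str × Str) : Str :=
  (ansT (E e) K (Pd G d) (Nf C v) (v.1, v.2, fin E K G e d C v)).2

/-- the second argument used by the thinning -/
noncomputable def yy (E : ℕ → Code) (K : Set Str) (G : ℕ → Option Str) (e d C : ℕ)
    (v : Str × Str) : Str :=
  chY (E e) (cut K (lb (E e) (Nf C v))) (Pd G d) (Nf C v) (v.1, v.2, fin E K G e d C v)

theorem thin_eq_vl (hC : ∀ n ≥ C, 2 * ((Nat.log 2 (lb (E e) n) + 1) *
    (6 * Nat.log 2 (lb (E e) n) ^ 2 + 1)) + 4 ≤ n) (hG : Valid G) (v : Str × Str) :
    thin E K G e d C v = vl (E e) (cut K (lb (E e) (Nf C v))) (Pd G d) (fin E K G e d C v) v.1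
      (yy E K G e d C v) := by
  have h := size_trip_le hC hG v (inv_iter (K := K) (d := d) hC hG v (Nf C v))
  unfold thin
  rw [ansT, if_pos (by exact h)]
  rfl

theorem thin_eq_eval (hC : ∀ n ≥ C, 2 * ((Nat.log 2 (lb (E e) n) + 1) *
    (6 * Nat.log 2 (lb (E e) n) ^ 2 + 1)) + 4 ≤ n) (hG : Valid G) (v : Str × Str) :
    thin E K G e d C v = (E e).eval (join K G) (pr v.1 (yy E K G e d C v)) := by
  have hI := inv_iter (K := K) (d := d) hC hG v (Nf C v)
  have hT := size_trip_le hC hG v hI
  rw [thin_eq_vl hC hG v, vl]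
  symm
  have hus := uses_spec (E e) (join (cut K (lb (E e) (Nf C v)))
    (GP (Pd G d) (fin E K G e d C v))) (pr v.1 (yy E K G e d C v))
  apply hus.2.2
  intro q hq
  have h1 := (hus.2.1 q hq).trans (resource_le (E e) (cut K (lb (E e) (Nf C v))) (Pd G d)
    (Nf C v) hT)
  rcases q with _ | ⟨b, u⟩
  · exact iff_of_false (nil_notMem_join _ _) (nil_notMem_join _ _)
  · cases b with
    | false =>
      rw [false_mem_join, false_mem_join]
      simp only [List.length_cons] at h1
      constructor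
      · exact fun h => ⟨h, by omega⟩
      · exact fun h => h.1
    | true =>
      rw [true_mem_join, true_mem_join]
      constructor
      · rintro ⟨j, r, hj, rfl⟩
        refine ⟨j, r, ?_, rfl⟩
        by_cases hjd : j < d
        · rw [GP_lt G _ hjd, hj]
        · rw [GP_ge G _ hjd]
          have hr := hG j r hj
          have hmem : (r, true :: addr j r) ∈ (ansT (E e) K (Pd G d) (Nf C v)
              (v.1, v.2, fin E K G e d C v)).1 := by
            rw [ansT, if_pos (by exact hT), List.mem_filterMap]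
            exact ⟨_, Finset.mem_toList.2 hq, parse_addr hr⟩
          have h2 := fin_fixed hC hG v _ hmem (addr_mem_join.2 hj)
          have h3 : ((fin E K G e d C v).find? (fun r => decide (r.length = j ^ 2))).isSome := by
            rw [List.find?_isSome]
            exact ⟨r, h2, by simpa using hr⟩
          obtain ⟨s, hs⟩ := Option.isSome_iff_exists.1 h3
          rw [hs]
          obtain ⟨i, hi, _⟩ := hI.2 s (List.mem_of_find?_eq_some hs)
          have h4 := List.find?_some hs
          simp only [decide_eq_true_eq] at h4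
          have h5 : i = j := sq_inj (by rw [← hG i s hi, h4])
          subst h5
          rw [← hi, hj]
      · rintro ⟨j, r, hj, rfl⟩
        refine ⟨j, r, ?_, rfl⟩
        by_cases hjd : j < d
        · rw [GP_lt G _ hjd] at hj
          exact hj
        · rw [GP_ge G _ hjd] at hj
          obtain ⟨i, hi, _⟩ := hI.2 r (List.mem_of_find?_eq_some hj)
          have h4 := List.find?_some hj
          simp only [decide_eq_true_eq] at h4
          have h5 : i = j := sq_inj (by rw [← hG i r hi, h4])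
          subst h5
          exact hi

end world

end Pool.Agent.Helper86.Cyl
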